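import Pool.Agent.H80.IR.Fin
import Pool.Agent.H80.IR.T.P1
import Pool.Agent.H80.IR.T.P2
import Pool.Agent.H80.IR.T.COT
import Pool.Agent.H80.IR.T.TR1
import Pool.Agent.H80.IR.T.TR2
import Pool.Agent.H80.IR.T.TR3
import Pool.Agent.H80.IR.T.STA
import Pool.Agent.H80.IR.T.STB
import Pool.Agent.H80.IR.T.QA15
import Pool.Agent.H80.IR.T.QB15
import Pool.Agent.H80.IR.T.QC15
import Pool.Agent.H80.IR.T.QA10
import Pool.Agent.H80.IR.T.QB10
import Pool.Agent.H80.IR.T.FMIN
import Pool.Agent.H80.IR.T.POS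
import Pool.Agent.H80.IR.T.TWO
import Pool.Agent.H80.IR.T.GCD
import Pool.Agent.H80.IR.T.SUM
import Pool.Agent.H80.IR.T.FRD
import Pool.Agent.H80.IR.T.FRK
import Pool.Agent.H80.IR.T.NUM
import Pool.Agent.H80.IR.T.DIF
import Pool.Agent.H80.IR.T.SG
import Pool.Agent.H80.IR.T.T3
import Pool.Agent.H80.IR.T.FL
import Pool.Agent.H80.IR.T.EXJ
import Pool.Agent.H80.IR.T.E2
import Pool.Agent.H80.IR.T.E3
import Pool.Agent.H80.IR.T.E5
import Pool.Agent.H80.IR.T.X15
import Pool.Agent.H80.IR.T.X10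
import Pool.Agent.H80.IR.T.X6
import Pool.Agent.H80.IR.T.G6
import Pool.Agent.H80.IR.T.G5
import Pool.Agent.H80.IR.T.TOP
set_option autoImplicit false

/-!
# Project IR: all parts
-/

namespace Pool.Agent.H80.IR

open Pool.Agent.H80.Sig Finset

theorem star_thm : S_STAR :=
  star_of (STA.main P1.main P2.main) (STB.main TR1.main (TR2.main COT.main) (TR3.main COT.main))

theorem two_thm : S_TWO := TWO.main FMIN.main

theorem dif_thm : S_DIF := DIF.main star_thm FMIN.main FRD.main FRK.main NUM.main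

theorem t3_thm : S_T3 :=
  T3.main FMIN.main (POS.main FMIN.main) two_thm GCD.main SUM.main dif_thm SG.main

theorem e2_thm : S_E2 := E2.main FL.main EXJ.main

theorem e3_thm : S_E3 := E3.main FL.main EXJ.main

theorem e5_thm : S_E5 := E5.main FL.main EXJ.main

theorem x15_thm : S_X15 :=
  X15.main e2_thm e3_thm e5_thm star_thm (QA15.main P1.main P2.main) (QB15.main COT.main)
    (QC15.main COT.main)

theorem x10_thm : S_X10 :=
  X10.main e2_thm e3_thm e5_thm star_thm (QA10.main P1.main P2.main) (QB10.main COT.main)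

theorem x6_thm : S_X6 := X6.main e2_thm e3_thm EXJ.main

theorem fin_thm : S_FIN :=
  fin_of TOP.main two_thm x15_thm x10_thm x6_thm G6.main
    (G5.main t3_thm SUM.main (POS.main FMIN.main) FMIN.main)

/-- The same for the signature functions. -/
theorem sum_thm (K : List (ℕ × ℕ)) (n : ℕ) (K' : Fin n → List (ℕ × ℕ)) (hK : K ≠ [])
    (vK : Valid K) (hK' : ∀ i, K' i ≠ [] ∧ Valid (K' i))
    (hfin : {x : ℝ | x ∈ Set.Ioo (0 : ℝ) 1 ∧ sigK K x ≠ ∑ i, sigK (K' i) x}.Finite) :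
    (n = 1 ∧ ∀ i, Same K (K' i)) ∨ (n = 3 ∧ ∃ i j k : Fin n, i ≠ j ∧ i ≠ k ∧ j ≠ k ∧
      (K' i = [(2, 3)] ∨ K' i = [(3, 2)]) ∧ lastProd (K' j) = 10 ∧ lastProd (K' k) = 15 ∧
      (∃ L, K = (5, 6) :: L ∨ K = (6, 5) :: L) ∧ ∑ i, gen2 (K' i) = gen2 K + 4) := by
  classical
  have cop : ∀ {L : List (ℕ × ℕ)}, Valid L → Cop L := fun h c hc =>
    ⟨(h c hc).1, by have := (h c hc).2.1; omega⟩
  refine fin_thm K n K' hK vK hK' fun x => ?_
  have h := jump_relation (Finset.univ : Finset (Option (Fin n)))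
    (fun o => o.elim (1 : ℝ) (fun _ => -1)) (fun o => o.elim K K') ?_ ?_ x
  · rw [Fintype.sum_option] at h
    simp only [Option.elim] at h
    have h2 : (JK K x : ℝ) = ((∑ i, JK (K' i) x : ℤ) : ℝ) := by
      push_cast
      rw [one_mul] at h
      simp only [neg_mul, one_mul, sum_neg_distrib] at h
      linarith
    exact_mod_cast h2
  · rintro (_ | i) _
    · exact cop vK
    · exact cop (hK' i).2
  · refine hfin.subset ?_
    rintro y ⟨hy, hne⟩
    refine ⟨hy, fun heq => hne ?_⟩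
    rw [Fintype.sum_option]
    simp only [Option.elim]
    rw [heq]
    push_cast
    simp only [neg_mul, one_mul, sum_neg_distrib]
    ring

end Pool.Agent.H80.IR
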