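import Pool.Agent.H80.IR.Stm
set_option autoImplicit false

/-!
# Project IR: assembly
-/

namespace Pool.Agent.H80.IR

open Pool.Agent.H80.Sig Finset

theorem star_of (h1 : S_STA) (h2 : S_STB) : S_STAR := by
  intro f e N₁ N₂ L hL hf hN1 hN2 hf7 hf12 hc he hef p1 p2 hrel
  have hcfg := h1 f e N₁ N₂ L hL hf hN1 hN2 hf7 hf12 hc he hef p1 p2 hrel
  have h3 := hrel 1 (Nat.coprime_one_left L)
  rw [mul_one] at h3
  exact h2 f e N₁ N₂ hf7 hc he hef p1 p2 hcfg h3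

lemma prod_six {a b : ℕ} (h : a * b = 6) (ha : 2 ≤ a) (hb : 2 ≤ b) :
    (a = 2 ∧ b = 3) ∨ (a = 3 ∧ b = 2) := by
  have h1 : a ∣ 6 := Dvd.intro b h
  have h2 : a ≤ 6 := Nat.le_of_dvd (by norm_num) h1
  interval_cases a <;> omega

lemma prod_ten {a b : ℕ} (h : a * b = 10) (ha : 2 ≤ a) (hb : 2 ≤ b) :
    (a = 2 ∧ b = 5) ∨ (a = 5 ∧ b = 2) := by
  have h1 : a ∣ 10 := Dvd.intro b h
  have h2 : a ≤ 10 := Nat.le_of_dvd (by norm_num) h1
  interval_cases a <;> omega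

lemma prod_fifteen {a b : ℕ} (h : a * b = 15) (ha : 2 ≤ a) (hb : 2 ≤ b) :
    (a = 3 ∧ b = 5) ∨ (a = 5 ∧ b = 3) := by
  have h1 : a ∣ 15 := Dvd.intro b h
  have h2 : a ≤ 15 := Nat.le_of_dvd (by norm_num) h1
  interval_cases a <;> omega

lemma prod_thirty {a b : ℕ} (h : a * b = 30) (ha : 2 ≤ a) (hb : 2 ≤ b) :
    ((a = 5 ∧ b = 6) ∨ (a = 6 ∧ b = 5)) ∨ ((a = 2 ∧ b = 15) ∨ (a = 15 ∧ b = 2)) ∨
      ((a = 3 ∧ b = 10) ∨ (a = 10 ∧ b = 3)) := by
  have h1 : a ∣ 30 := Dvd.intro b h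
  have h2 : a ≤ 30 := Nat.le_of_dvd (by norm_num) h1
  interval_cases a <;> omega

/-- the genera in the exceptional case -/
lemma genera {p q a₁ a₂ b₁ b₂ c₁ c₂ : ℕ} {L A B C : List (ℕ × ℕ)}
    (hE : Exc p q a₁ a₂ b₁ b₂ c₁ c₂ L A B C) (h6 : S_X6) (hG6 : S_G6) (hG5 : S_G5)
    (hp : (p = 5 ∧ q = 6) ∨ (p = 6 ∧ q = 5)) :
    A = [] ∧ gen2 ((a₁, a₂) :: A) + gen2 ((b₁, b₂) :: B) + gen2 ((c₁, c₂) :: C) =
      gen2 ((p, q) :: L) + 4 := by
  obtain ⟨hA, hB, hC, hrel⟩ := h6 p q a₁ a₂ b₁ b₂ c₁ c₂ L A B C hE hp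
  obtain ⟨vK, vA, vB, vC, eK, eA, eB, eC, -⟩ := hE
  refine ⟨hA, ?_⟩
  have key : gen2 B + gen2 C = 2 + gen2 L ∧ (p = 5 ∨ L = []) := by
    rcases hp with ⟨rfl, rfl⟩ | ⟨rfl, rfl⟩
    · refine ⟨hG5 L B C vK.tail vB.tail vC.tail fun y => ?_, Or.inl rfl⟩
      have h1 := hrel (y / 5)
      have h2 : (5 : ℝ) * (y / 5) = y := by ring
      push_cast at h1
      rw [h2] at h1
      exact h1
    · have hL : L = [] := hG6 L B C vK.tail fun x => by
        have h1 := hrel x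
        push_cast at h1
        exact h1
      subst hL
      refine ⟨hG5 [] B C vK.tail vB.tail vC.tail fun y => ?_, Or.inr rfl⟩
      have h1 := hrel (y / 5)
      have h2 : (5 : ℝ) * (y / 5) = y := by ring
      rw [h2] at h1
      simp only [JK] at h1 ⊢
      exact h1
  obtain ⟨h1, h2⟩ := key
  have gB : b₁ * gen2 B = 5 * gen2 B := by
    rcases hB with h | h
    · rw [h]
    · rw [h]; simp [gen2]
  have gC : c₁ * gen2 C = 5 * gen2 C := by
    rcases hC with h | h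
    · rw [h]
    · rw [h]; simp [gen2]
  have gL : p * gen2 L = 5 * gen2 L := by
    rcases h2 with h | h
    · rw [h]
    · rw [h]; simp [gen2]
  have sA : (a₁ - 1) * (a₂ - 1) = 2 := by
    rcases prod_six eA vA.head.2.1 vA.head.2.2 with ⟨h, h'⟩ | ⟨h, h'⟩ <;> rw [h, h']
  have sB : (b₁ - 1) * (b₂ - 1) = 4 := by
    rcases prod_ten eB vB.head.2.1 vB.head.2.2 with ⟨h, h'⟩ | ⟨h, h'⟩ <;> rw [h, h']
  have sC : (c₁ - 1) * (c₂ - 1) = 8 := by
    rcases prod_fifteen eC vC.head.2.1 vC.head.2.2 with ⟨h, h'⟩ | ⟨h, h'⟩ <;> rw [h, h']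
  have sK : (p - 1) * (q - 1) = 20 := by
    rcases hp with ⟨h, h'⟩ | ⟨h, h'⟩ <;> rw [h, h']
  subst hA
  simp only [gen2]
  rw [sA, sB, sC, sK, gB, gC, gL]
  omega

theorem fin_of (hT : S_TOP) (h2 : S_TWO) (h15 : S_X15) (h10 : S_X10) (h6 : S_X6) (hG6 : S_G6)
    (hG5 : S_G5) : S_FIN := by
  intro K n K' hK vK hK' hrel
  rcases hT K n K' hK vK hK' hrel with rfl | ⟨rfl, hK30, i, j, k, hij, hik, hjk, hi, hj, hk⟩
  · left
    refine ⟨rfl, fun i => ?_⟩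
    refine (h2 K (K' i) 1 1 one_pos one_pos vK (hK' i).2 hK fun x => ?_).2
    have h1 := hrel (((1 : ℕ) : ℝ) * x)
    rw [h1, Fin.sum_univ_one]
    congr 1
    rw [Subsingleton.elim (0 : Fin 1) i]
  · right
    obtain ⟨p, q, L, rfl⟩ : ∃ p q L, K = (p, q) :: L := ⟨_, _, _, list_eq hK⟩
    obtain ⟨a₁, a₂, A, eA⟩ : ∃ p q L, K' i = (p, q) :: L := ⟨_, _, _, list_eq (hK' i).1⟩
    obtain ⟨b₁, b₂, B, eB⟩ : ∃ p q L, K' j = (p, q) :: L := ⟨_, _, _, list_eq (hK' j).1⟩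
    obtain ⟨c₁, c₂, C, eC⟩ : ∃ p q L, K' k = (p, q) :: L := ⟨_, _, _, list_eq (hK' k).1⟩
    have huniv : (univ : Finset (Fin 3)) = {i, j, k} := by
      symm
      apply Finset.eq_univ_of_card
      rw [Finset.card_insert_of_notMem, Finset.card_insert_of_notMem, Finset.card_singleton]
      · rfl
      · simpa using hjk
      · simp only [Finset.mem_insert, Finset.mem_singleton]; tauto
    have hsum : ∀ F : Fin 3 → ℕ, ∑ l, F l = F i + F j + F k := by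
      intro F
      rw [huniv, Finset.sum_insert, Finset.sum_insert, Finset.sum_singleton, add_assoc]
      · simpa using hjk
      · simp only [Finset.mem_insert, Finset.mem_singleton]; tauto
    have hsumZ : ∀ F : Fin 3 → ℤ, ∑ l, F l = F i + F j + F k := by
      intro F
      rw [huniv, Finset.sum_insert, Finset.sum_insert, Finset.sum_singleton, add_assoc]
      · simpa using hjk
      · simp only [Finset.mem_insert, Finset.mem_singleton]; tauto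
    have vA := (hK' i).2
    have vB := (hK' j).2
    have vC := (hK' k).2
    rw [eA] at vA
    rw [eB] at vB
    rw [eC] at vC
    have lA := hi
    have lB := hj
    have lC := hk
    rw [eA] at lA
    rw [eB] at lB
    rw [eC] at lC
    simp only [lastProd] at hK30 lA lB lC
    have hE : Exc p q a₁ a₂ b₁ b₂ c₁ c₂ L A B C := by
      refine ⟨vK, vA, vB, vC, hK30, lA, lB, lC, fun x => ?_⟩
      rw [hrel x, hsumZ, eA, eB, eC]
    have hp : (p = 5 ∧ q = 6) ∨ (p = 6 ∧ q = 5) := by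
      rcases prod_thirty hK30 vK.head.2.1 vK.head.2.2 with h | h | h
      · exact h
      · exact absurd h (h15 _ _ _ _ _ _ _ _ _ _ _ _ hE)
      · exact absurd h (h10 _ _ _ _ _ _ _ _ _ _ _ _ hE)
    obtain ⟨hA, hg⟩ := genera hE h6 hG6 hG5 hp
    subst hA
    refine ⟨rfl, i, j, k, hij, hik, hjk, ?_, hj, hk, ?_, ?_⟩
    · rw [eA]
      rcases prod_six lA vA.head.2.1 vA.head.2.2 with ⟨rfl, rfl⟩ | ⟨rfl, rfl⟩
      · exact Or.inl rfl
      · exact Or.inr rfl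
    · refine ⟨L, ?_⟩
      rcases hp with ⟨rfl, rfl⟩ | ⟨rfl, rfl⟩
      · exact Or.inl rfl
      · exact Or.inr rfl
    · rw [hsum, eA, eB, eC]
      exact hg

end Pool.Agent.H80.IR
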