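import Pool.Agent.H80.IR.Rays0
import Pool.Agent.H80.IR.T.FL
import Pool.Agent.H80.IR.T.EXJ
import Pool.Agent.H80.IR.T.RR
import Pool.Agent.H80.IR.T.KLP
import Pool.Agent.H80.IR.T.HEADS
import Pool.Agent.H80.IR.T.ALL
import Pool.Agent.H80.IR.T.EXT
import Pool.Agent.H80.IR.T.WT
import Pool.Agent.H80.IR.T.E2R
import Pool.Agent.H80.IR.T.E3R
import Pool.Agent.H80.IR.T.E5R
import Pool.Agent.H80.IR.T.STEP2
import Pool.Agent.H80.IR.T.TOPC
import Pool.Agent.H80.IR.T.LIN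
import Pool.Agent.H80.IR.T.QR15
import Pool.Agent.H80.IR.T.QR10
import Pool.Agent.H80.IR.T.PAIR
set_option autoImplicit false

/-!
# Project IR: extreme rays
-/

namespace Pool.Agent.H80.IR

open Pool.Agent.H80.Sig Finset

theorem ext_thm : S_EXT := EXT.main KLP.main (HEADS.main RR.main) (ALL.main KLP.main)

theorem pair_thm : S_PAIR :=
  PAIR.main (E2R.main FL.main EXJ.main) (E3R.main FL.main EXJ.main) (E5R.main FL.main EXJ.main)
    (QR15.main STEP2.main TOPC.main LIN.main) (QR10.main STEP2.main TOPC.main LIN.main)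

theorem sig_rays {ι : Type} (S : Finset ι) (K : List (ℕ × ℕ)) (K' : ι → List (ℕ × ℕ)) (c : ι → ℝ)
    (hK : K ≠ []) (vK : Valid K) (hK' : ∀ i ∈ S, K' i ≠ [] ∧ Valid (K' i) ∧ 0 < c i)
    (hfin : {x : ℝ | x ∈ Set.Ioo (0 : ℝ) 1 ∧ (sigK K x : ℝ) ≠ ∑ i ∈ S, c i * (sigK (K' i) x : ℝ)}.Finite) :
    ((∀ i ∈ S, Same K (K' i)) ∧ ∑ i ∈ S, c i = 1) ∨
      ((∃ L, K = (5, 6) :: L ∨ K = (6, 5) :: L) ∧ ∃ t : ℝ, 0 < t ∧ ∀ N : ℕ,
        ∑ i ∈ S with lastProd (K' i) = N, c i =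
          if N = 30 then 1 - t else if N = 6 ∨ N = 10 ∨ N = 15 then t else 0) :=
  sig_rays_of WT.main ext_thm pair_thm S K K' c hK vK hK' hfin

end Pool.Agent.H80.IR
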