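import Pool.Agent.H80.IR.Stm3
set_option autoImplicit false

/-!
# Project IR: extreme rays, assembly
-/

namespace Pool.Agent.H80.IR

open Pool.Agent.H80.Sig Finset

lemma Wt.all {ι : Type} {S : Finset ι} {K : List (ℕ × ℕ)} {K' : ι → List (ℕ × ℕ)} {c : ι → ℝ}
    {t : ℝ} (h : Wt S K K' c t) (N : ℕ) : ∑ i ∈ S with lastProd (K' i) = N, c i =
      if N = 30 then 1 - t else if N = 6 ∨ N = 10 ∨ N = 15 then t else 0 := by
  obtain ⟨_, _, hN, h30, h6, h10, h15⟩ := h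
  by_cases n30 : N = 30
  · subst n30; rw [if_pos rfl]; exact h30
  · rw [if_neg n30]
    by_cases n6 : N = 6 ∨ N = 10 ∨ N = 15
    · rw [if_pos n6]
      rcases n6 with rfl | rfl | rfl
      · exact h6
      · exact h10
      · exact h15
    · rw [if_neg n6]
      apply sum_eq_zero
      intro i hi
      obtain ⟨hi1, hi2⟩ := mem_filter.1 hi
      have := hN i hi1
      rw [hi2] at this
      tauto

/-- the theorem for the jump functions -/
theorem rays_of (hW : S_WT) (hE : S_EXT) (hP : S_PAIR) {ι : Type} {S : Finset ι}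
    {K : List (ℕ × ℕ)} {K' : ι → List (ℕ × ℕ)} {c : ι → ℝ} (h : PosRel S K K' c) :
    ((∀ i ∈ S, Same K (K' i)) ∧ ∑ i ∈ S, c i = 1) ∨
      (((hd1 K = 5 ∧ hd2 K = 6) ∨ (hd1 K = 6 ∧ hd2 K = 5)) ∧ ∃ t : ℝ, 0 < t ∧ ∀ N : ℕ,
        ∑ i ∈ S with lastProd (K' i) = N, c i =
          if N = 30 then 1 - t else if N = 6 ∨ N = 10 ∨ N = 15 then t else 0) := by
  rcases hW ι S K K' c h with h1 | ⟨t, ht⟩
  · exact Or.inl ⟨hE ι S K K' c h.1 h.2.1 h.2.2.1 h1.le h.2.2.2, h1⟩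
  · exact Or.inr ⟨hP ι S K K' c t h ht, t, ht.1, ht.all⟩

/-- the theorem for the signature functions -/
theorem sig_rays_of (hW : S_WT) (hE : S_EXT) (hP : S_PAIR) {ι : Type} (S : Finset ι)
    (K : List (ℕ × ℕ)) (K' : ι → List (ℕ × ℕ)) (c : ι → ℝ) (hK : K ≠ []) (vK : Valid K)
    (hK' : ∀ i ∈ S, K' i ≠ [] ∧ Valid (K' i) ∧ 0 < c i)
    (hfin : {x : ℝ | x ∈ Set.Ioo (0 : ℝ) 1 ∧ (sigK K x : ℝ) ≠ ∑ i ∈ S, c i * (sigK (K' i) x : ℝ)}.Finite) :
    ((∀ i ∈ S, Same K (K' i)) ∧ ∑ i ∈ S, c i = 1) ∨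
      ((∃ L, K = (5, 6) :: L ∨ K = (6, 5) :: L) ∧ ∃ t : ℝ, 0 < t ∧ ∀ N : ℕ,
        ∑ i ∈ S with lastProd (K' i) = N, c i =
          if N = 30 then 1 - t else if N = 6 ∨ N = 10 ∨ N = 15 then t else 0) := by
  classical
  have cop : ∀ {L : List (ℕ × ℕ)}, Valid L → Cop L := fun h c hc =>
    ⟨(h c hc).1, by have := (h c hc).2.1; omega⟩
  have hJ : ∀ x : ℝ, (JK K x : ℝ) = ∑ i ∈ S, c i * (JK (K' i) x : ℝ) := by
    intro x
    have h := jump_relation (insertNone S) (fun o => o.elim (1 : ℝ) (fun i => - c i))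
      (fun o => o.elim K K') ?_ ?_ x
    · rw [sum_insertNone] at h
      simp only [Option.elim, neg_mul, one_mul, sum_neg_distrib] at h
      linarith
    · rintro (_ | i) hi
      · exact cop vK
      · exact cop (hK' i (by simpa using hi)).2.1
    · refine hfin.subset ?_
      rintro y ⟨hy, hne⟩
      refine ⟨hy, fun heq => hne ?_⟩
      rw [sum_insertNone]
      simp only [Option.elim, neg_mul, one_mul, sum_neg_distrib]
      rw [heq]
      ring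
  rcases rays_of hW hE hP ⟨hK, vK, hK', hJ⟩ with h | ⟨h, h'⟩
  · exact Or.inl h
  · refine Or.inr ⟨⟨K.tail, ?_⟩, h'⟩
    rw [list_eq hK]
    rcases h with ⟨h1, h2⟩ | ⟨h1, h2⟩
    · left; rw [h1, h2]; rfl
    · right; rw [h1, h2]; rfl

end Pool.Agent.H80.IR
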