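import Pool.Agent.H80.IR.Rays
import Pool.Agent.H80.IR.T.SIX
set_option autoImplicit false

/-!
# Project IR: extreme rays, which knots are exceptional
-/

namespace Pool.Agent.H80.IR

open Pool.Agent.H80.Sig Finset

/-- the theorem for the jump functions -/
theorem rays2 {ι : Type} {S : Finset ι} {K : List (ℕ × ℕ)} {K' : ι → List (ℕ × ℕ)} {c : ι → ℝ}
    (h : PosRel S K K' c) :
    ((∀ i ∈ S, Same K (K' i)) ∧ ∑ i ∈ S, c i = 1) ∨
      (((∃ L, K = (5, 6) :: L) ∨ K = [(6, 5)]) ∧ ∃ t : ℝ, 0 < t ∧ ∀ N : ℕ,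
        ∑ i ∈ S with lastProd (K' i) = N, c i =
          if N = 30 then 1 - t else if N = 6 ∨ N = 10 ∨ N = 15 then t else 0) := by
  rcases WT.main ι S K K' c h with h1 | ⟨t, ht⟩
  · exact Or.inl ⟨ext_thm ι S K K' c h.1 h.2.1 h.2.2.1 h1.le h.2.2.2, h1⟩
  · refine Or.inr ⟨?_, t, ht.1, ht.all⟩
    have e := list_eq h.1
    rcases pair_thm ι S K K' c t h ht with ⟨h1, h2⟩ | ⟨h1, h2⟩
    · left
      refine ⟨K.tail, ?_⟩
      rw [h1, h2] at e
      exact e
    · right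
      have h3 := SIX.six_nil KLP.main EXJ.main (E2R.main FL.main EXJ.main) (E3R.main FL.main EXJ.main)
        h ht h1 h2
      rw [h1, h2, h3] at e
      exact e

/-- the theorem for the signature functions -/
theorem sig_rays2 {ι : Type} (S : Finset ι) (K : List (ℕ × ℕ)) (K' : ι → List (ℕ × ℕ)) (c : ι → ℝ)
    (hK : K ≠ []) (vK : Valid K) (hK' : ∀ i ∈ S, K' i ≠ [] ∧ Valid (K' i) ∧ 0 < c i)
    (hfin : {x : ℝ | x ∈ Set.Ioo (0 : ℝ) 1 ∧ (sigK K x : ℝ) ≠ ∑ i ∈ S, c i * (sigK (K' i) x : ℝ)}.Finite) :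
    ((∀ i ∈ S, Same K (K' i)) ∧ ∑ i ∈ S, c i = 1) ∨
      (((∃ L, K = (5, 6) :: L) ∨ K = [(6, 5)]) ∧ ∃ t : ℝ, 0 < t ∧ ∀ N : ℕ,
        ∑ i ∈ S with lastProd (K' i) = N, c i =
          if N = 30 then 1 - t else if N = 6 ∨ N = 10 ∨ N = 15 then t else 0) := by
  classical
  have cop : ∀ {L : List (ℕ × ℕ)}, Valid L → Cop L := fun h c hc =>
    ⟨(h c hc).1, by have := (h c hc).2.1; omega⟩
  have hJ : ∀ x : ℝ, (JK K x : ℝ) = ∑ i ∈ S, c i * (JK (K' i) x : ℝ) := by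
    intro x
    have h := jump_relation (insertNone S) (fun o => o.elim (1 : ℝ) (fun i => - c i))
      (fun o => o.elim K K') ?_ ?_ x
    · rw [sum_insertNone] at h
      simp only [Option.elim, neg_mul, one_mul, sum_neg_distrib] at h
      linarith
    · rintro (_ | i) hi
      · exact cop vK
      · exact cop (hK' i (by simpa using hi)).2.1
    · refine hfin.subset ?_
      rintro y ⟨hy, hne⟩
      refine ⟨hy, fun heq => hne ?_⟩
      rw [sum_insertNone]
      simp only [Option.elim, neg_mul, one_mul, sum_neg_distrib]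
      rw [heq]
      ring
  exact rays2 ⟨hK, vK, hK', hJ⟩

lemma sig_swap (p q : ℕ) (x : ℝ) : sig p q x = sig q p x := by
  unfold sig
  rw [Finset.sum_comm]
  refine sum_congr rfl fun j _ => sum_congr rfl fun i _ => ?_
  rw [add_comm ((i : ℝ) / p)]

/-- every knot with last pair `(5,6)` is exceptional -/
theorem exceptional_all (L : List (ℕ × ℕ)) :
    {x : ℝ | x ∈ Set.Ioo (0 : ℝ) 1 ∧ sigK ((5, 6) :: L) x ≠
      sigK [(2, 3)] x + sigK ((5, 2) :: L) x + sigK [(5, 3), (2, 3)] x}.Finite := by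
  refine exceptional.subset ?_
  rintro x ⟨hx, hne⟩
  refine ⟨hx, fun h => hne ?_⟩
  simp only [sigK] at h ⊢
  rw [sig_swap 5 2]
  linarith

end Pool.Agent.H80.IR
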