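import Pool.Agent.H80.Sig.Three
set_option autoImplicit false

/-!
# Project IR: an iterated torus knot is never a sum of iterated torus knots (stubs)

Every `S_NAME` is to be proved in `Pool/Agent/H80/IR/T/NAME.lean` as
`theorem Pool.Agent.H80.IR.NAME.main : (earlier statements as hypotheses) → S_NAME`
(namespace `Pool.Agent.H80.IR.NAME`). Notation: `ct N h = cot (π h / N)` (file `Sig/Cot.lean`, with
`ct_lt`, `ct_lt_gen` (`cot` is decreasing), `ct_neg`, `ct_congr`, `ct_pos`, `ct_le_one`), `cond N` is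
`N / 2` for `N ≡ 2 mod 4` and `N` otherwise (`Sig/CotIndep.lean`).
-/

namespace Pool.Agent.H80.IR

open Pool.Agent.H80.Sig Finset

/-- twice the genus of an iterated torus knot -/
def gen2 : List (ℕ × ℕ) → ℕ
  | [] => 0
  | (p, q) :: L => (p - 1) * (q - 1) + p * gen2 L

/-- a number `≥ 6` which is no prime power -/
def NPP (N : ℕ) : Prop := 6 ≤ N ∧ ¬ IsPrimePow N

/-! ## Characters -/

/-- P1 (120 lines). Let `g = cond (N i₀)` (`≥ 3`, `≢ 2 mod 4`, `≠ 12`), `χ` an odd primitive character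
mod `g` (`exists_odd_prim`, `Prim` in `Sig/Chars.lean`). Multiply the relation (in the form
`K N h = I * ct N h`, `K_eq_ct`) for `u = vl v` by `χ v` and sum over `v : (ZMod L)ˣ`. Choose a unit `w`
with `vl w ≡ a i mod N i` (`lift_unit`); by `T_shift` `∑ v, χ v K (N i) (a i v) = χ(w)⁻¹ T L χ (N i)`
(replace `a i` by `vl w` with `K_congr`). For `i ≠ i₀` this is `0` by `T_kill`. For `i₀` it is nonzero:
`T_self_ne` if `N i₀ = g`, `T_two` and `two_sub_ne` if `N i₀ = 2 g`, `g` odd. So `A i₀ = 0`. The model is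
the proof of `indep_aux` in `Sig/CotIndep.lean`. -/
def S_P1 : Prop := ∀ (n : ℕ) (N a : Fin n → ℕ) (A : Fin n → ℝ) (L : ℕ), 0 < L →
  (∀ i, N i ∣ L ∧ (a i).Coprime (N i)) →
  (∀ u : ℕ, u.Coprime L → ∑ i, A i * ct (N i) (a i * u) = 0) →
  ∀ i₀, 3 ≤ N i₀ → N i₀ ≠ 12 → (∀ i, i ≠ i₀ → ¬ Sig.cond (N i₀) ∣ N i) → A i₀ = 0

/-- P2 (120 lines). The same for `N i₀ = 12` and the odd primitive characters mod `3` and mod `4`
(`exists_odd_prim 3`, `exists_odd_prim 4`). For the nonvanishing: for `u` prime to `12`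
`ct 12 u = 2 * ct 4 u + 3 * ct 3 u` (check `u = 1, 5, 7, 11`; `cot (π/12) = 2 + √3`, `cot (5π/12) = 2 - √3`,
`cot (π/3) = 1/√3`), so `T L χ 12 = 2 T L χ 4 + 3 T L χ 3`, and for `χ` mod `4` the second term is `0`
(`T_kill`, `¬ 4 ∣ 3`), the first is not (`T_self_ne`); for `χ` mod `3` the other way round. -/
def S_P2 : Prop := ∀ (n : ℕ) (N a : Fin n → ℕ) (A : Fin n → ℝ) (L : ℕ), 0 < L →
  (∀ i, N i ∣ L ∧ (a i).Coprime (N i)) →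
  (∀ u : ℕ, u.Coprime L → ∑ i, A i * ct (N i) (a i * u) = 0) →
  ∀ i₀, N i₀ = 12 → ∀ g : ℕ, (g = 3 ∨ g = 4) → (∀ i, i ≠ i₀ → ¬ g ∣ N i) → A i₀ = 0

/-! ## Trigonometry -/

/-- COT (60 lines). Upper bound: `g x = sin x (1 - x²/3) - x cos x` has `g 0 = 0` and
`g' x = (x/3) (sin x - x cos x) ≥ 0`. Lower bound: `h x = x cos x - sin x (1 - x²/3 - x⁴/40)` has
`h' x = (x/3)(x cos x - sin x) + x⁴/40 cos x + x³/10 sin x ≥ x⁴ (-1/9 + 1/40 (1 - x²/2) + 1/10 (1 - x²/6)) ≥ 0`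
for `0 ≤ x ≤ 3/5` (use `x cos x - sin x ≥ - x³/3`, `cos x ≥ 1 - x²/2`, `sin x ≥ x - x³/6`). -/
def S_COT : Prop := ∀ x : ℝ, 0 < x → x ≤ 3 / 5 →
  1 / x - x / 3 - x ^ 3 / 40 ≤ Real.cos x / Real.sin x ∧ Real.cos x / Real.sin x ≤ 1 / x - x / 3

/-- TR1 (40 lines). `cot x - cot 2x = 1 / sin 2x > cot 2x ≥ cot 3x` for `x = π / m`, `3 x < π`. -/
def S_TR1 : Prop := ∀ m : ℕ, 8 ≤ m → ct m 2 + ct m 3 < ct m 1

/-- TR2 (60 lines), `x = π / (2 m) ≤ π / 18`: `cot x ≥ 1/x - x/2` and `cot y < 1/y`, so both follow from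
`1/4 + 1/3 < 1 - x²/2`, `2/3 < 1 - x²/2`. (From S_COT, or directly.) -/
def S_TR2 : Prop := ∀ m : ℕ, 9 ≤ m → ct (2 * m) 4 + ct (2 * m) 3 < ct (2 * m) 1 ∧
  2 * ct (2 * m) 3 < ct (2 * m) 1

/-- TR3 (120 lines), `x = π / (2 m) ≤ π / 30`. The first: `cot 2x - cot 3x = sin x / (sin 2x sin 3x) =
1 / (2 cos x sin 3x)` and `cot 6x = cos 6x / (2 sin 3x cos 3x)`, so it says `cos 6x cos x < cos 3x`. The
others follow from `1/y - y/3 - y³/40 ≤ cot y ≤ 1/y - y/3` (S_COT; for `y = 7x ≤ 0.74` use only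
`cot y < 1/y`): `1/4 + 1/5 < 1/2`, `1/2 < 1/4 + 1/3`, `1/3 + 1/7 < 1/2`, `1/2 < 1/3 + 1/5`
(here `1/30 > 2 x² (1+...)`, `x² ≤ 0.011`), `1/5 + 1/6 < 1/2`. -/
def S_TR3 : Prop := ∀ m : ℕ, 15 ≤ m →
  ct (2 * m) 6 + ct (2 * m) 3 < ct (2 * m) 2 ∧ ct (2 * m) 4 + ct (2 * m) 5 < ct (2 * m) 2 ∧
  ct (2 * m) 2 < ct (2 * m) 4 + ct (2 * m) 3 ∧ ct (2 * m) 3 + ct (2 * m) 7 < ct (2 * m) 2 ∧
  ct (2 * m) 2 < ct (2 * m) 3 + ct (2 * m) 5 ∧ ct (2 * m) 5 + ct (2 * m) 6 < ct (2 * m) 2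

/-! ## The three-term relation -/

/-- the possible configurations -/
def Cfg (f N₁ N₂ : ℕ) : Prop :=
  (Odd N₂ ∧ N₁ = 2 * N₂ ∧ f ≤ 2 * N₂) ∨
  (4 ∣ f ∧ N₁ = f ∧ 2 * N₂ ≤ f) ∨
  (∃ m k n : ℕ, Odd m ∧ 3 ≤ k ∧ Odd k ∧ m = k * n ∧ (N₁ = m ∨ N₁ = 2 * m) ∧ (f = m ∨ f = 2 * m) ∧
    (N₂ = n ∨ N₂ = 2 * n))

/-- STA (150 lines), from S_P1, S_P2 (with `n = 3`, `N = ![N₁, f, N₂]`, `a = ![1, e, 1]`,
`A = ![1, -1, -1]`). `N₂ < N₁` (`u = 1`: `cot (π e / f) > 0`). Write `m₁ = cond N₁`, `m = cond f`,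
`m₂ = cond N₂`. P1 for `f` (`f ≠ 12`): `m ∣ N₁` or `m ∣ N₂`.
`N₁ = 12`: `N₂ ∈ {6, 10}`, P2 with `g = 4` gives `4 ∣ f`, so `m = f ≥ 8`, and `f ∣ 12` or `f ∣ N₂`:
impossible. Now `N₁ ≠ 12`, P1: `m₁ ∣ f` or `m₁ ∣ N₂`.
Case `m₁ ∣ N₂`: as `N₂ < N₁` and `N₁ ∈ {m₁, 2 m₁}`: `N₁ = 2 m₁`, `N₂ = m₁` odd; `m` divides `2 m₁`, and as
`m` is odd or divisible by `4`, `m ∣ m₁`, `f ≤ 2 m ≤ 2 m₁`: first configuration.
Case `m₁ ∣ f`, `¬ m₁ ∣ N₂`: then `m₁ ∣ m`. If `m ∣ N₂` then `m₁ ∣ N₂`, contradiction; so `m ∣ N₁`, `m ∣ m₁`,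
`m = m₁`, and `¬ m ∣ N₂`. For `N₂ ≠ 12` P1 gives `m₂ ∣ N₁` or `m₂ ∣ f`, hence `m₂ ∣ m`. For `N₂ = 12` P2 gives
`3 ∣ m` and `4 ∣ m`, so again `m₂ = 12 ∣ m`. And `m₂ ≠ m` as `¬ m ∣ N₂`. If `4 ∣ m`: `N₁ = f = m`; `N₂ ≤ m / 2`
(`N₂ = m₂` is a proper divisor of `m`, or `N₂ = 2 m₂` with `m₂` odd, `4 m₂ ∣ m`): second configuration. If `m`
is odd: third, `n = m₂`, `k = m / m₂`. -/
def S_STA : Prop := ∀ f e N₁ N₂ L : ℕ, 0 < L → f ∣ L → N₁ ∣ L → N₂ ∣ L → 7 ≤ f → f ≠ 12 →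
  e.Coprime f → 2 ≤ e → 2 * e < f → NPP N₁ → NPP N₂ →
  (∀ u : ℕ, u.Coprime L → ct N₁ u = ct f (e * u) + ct N₂ u) → Cfg f N₁ N₂

/-- STB (150 lines), from S_TR1, S_TR2, S_TR3. First configuration: `cot (π/2N₂) - cot (π/N₂) =
1 / sin (π/N₂) > cot (π/N₂)`, and `cot (π e/f) ≤ cot (π/N₂)` as `e/f ≥ 2/f ≥ 1/N₂`. Second: `e ≥ 3` is
odd, `cot (π e/f) ≤ cot (3π/f)`, `cot (π/N₂) ≤ cot (2π/f)`: TR1. Third: all in terms of
`c j = ct (2 m) j = cot (j π / (2 m))`, `9 ≤ m` (`N₂ ≥ 6`), and `15 ≤ m` if `N₁ = m` (`m` odd, no prime power):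
`ct N₂ 1 = c k` or `c (2 k)`. `N₁ = f = m`: `c 2 = c (2e) + ct N₂ 1`: for `e ≥ 3` TR3.1
(`c (2e) ≤ c 6`, `ct N₂ 1 ≤ c 3`); for `e = 2`, `ct N₂ 1 = c 3` contradicts TR3.3, otherwise `ct N₂ 1 ≤ c 5`
contradicts TR3.2. `N₁ = 2m`, `f = m`: `c 1 = c (2e) + ... ≤ c 4 + c 3`, TR2.1. `N₁ = f = 2m`: `e ≥ 3`,
`c 1 ≤ 2 c 3`, TR2.2. `N₁ = m`, `f = 2m`: `e` odd, `c 2 = c e + ct N₂ 1`. `e = 3`: `3` does not divide `m`
(`e` is prime to `f`), so `k ≥ 5`, `k ≠ 6`: `ct N₂ 1` is `c 5` (`k = 5`; contradicts TR3.5) or `≤ c 7`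
(TR3.4). `e = 5`: `5 ∤ m`, so `ct N₂ 1` is `c 3` (contradicts TR3.5) or `≤ c 6` (TR3.6). `e ≥ 7`: TR3.4. -/
def S_STB : Prop := ∀ f e N₁ N₂ : ℕ, 7 ≤ f → e.Coprime f → 2 ≤ e → 2 * e < f → NPP N₁ → NPP N₂ →
  Cfg f N₁ N₂ → ct N₁ 1 ≠ ct f e + ct N₂ 1

/-- STAR, from STA and STB (helper80 does it). -/
def S_STAR : Prop := ∀ f e N₁ N₂ L : ℕ, 0 < L → f ∣ L → N₁ ∣ L → N₂ ∣ L → 7 ≤ f → f ≠ 12 →
  e.Coprime f → 2 ≤ e → 2 * e < f → NPP N₁ → NPP N₂ →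
  ¬ ∀ u : ℕ, u.Coprime L → ct N₁ u = ct f (e * u) + ct N₂ u

/-! ## The four-term relations -/

/-- QA15 (150 lines), from S_P1, S_P2 (`n = 4`, `N = ![N₁, 15, N₂, N₃]`, `a = ![1, 2, 1, 1]`; if `N₂ = N₃` use
`n = 3`, `N = ![N₁, 15, N₂]`, `A = ![1, -1, -2]`). `N₂, N₃ < N₁` (`u = 1`). `N₁ = 12`: `N₂, N₃ ∈ {6, 10}`, P2
with `g = 4` is a contradiction. `m₁ = cond N₁`: P1 gives `m₁ ∣ 15` (then `N₁ ∣ 30`, first case) or `m₁ ∣ N₂` or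
`m₁ ∣ N₃`, say `m₁ ∣ N₂`; then `N₁ = 2 m₁`, `N₂ = m₁ =: m` is odd. Let `N = N₃ ≠ m`. `N = 12`: P2 with `g = 4`
is a contradiction (`4 ∤ 2m, 15, m`). Otherwise by P1 `cond N` divides `2m`, `15` or `m`, so it divides `15`
(`N ∣ 30`) or `m` (`cond N` is odd or divisible by `4`); in the last case `cond N = m` and `N ≠ m` would give
`N = 2m = N₁`, impossible, so `cond N = m / k`, `k ≥ 3` odd, `N ≤ 2m/k`, `3 N ≤ 2 m`. -/
def S_QA15 : Prop := ∀ N₁ N₂ N₃ L : ℕ, 0 < L → 15 ∣ L → N₁ ∣ L → N₂ ∣ L → N₃ ∣ L →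
  NPP N₁ → NPP N₂ → NPP N₃ →
  (∀ u : ℕ, u.Coprime L → ct N₁ u = ct 15 (2 * u) + ct N₂ u + ct N₃ u) →
  (N₂ < N₁ ∧ N₃ < N₁ ∧ N₁ ∣ 30) ∨ (∃ m N : ℕ, Odd m ∧ ¬ m ∣ 15 ∧ N₁ = 2 * m ∧
    ((N₂ = m ∧ N₃ = N) ∨ (N₂ = N ∧ N₃ = m)) ∧ (N ∣ 30 ∨ N = m ∨ 3 * N ≤ 2 * m))

/-- QB15 (80 lines), from S_COT. `cot (2π/15) = 2.2460`. `N₁ ∈ {6, 10, 15, 30}`. `6`: no `N₂`. `10`: `N₂ = N₃ = 6`,
`3.08 < 2 √3`. `15`: `4.705 < 2.24 + 2 √3`. `30`: `cot (π/30) = 9.5144`; let `N₃ ≤ N₂`; `cot (π/N)` for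
`N = 6, 10, 12, 14, 15, 18` is `1.7320, 3.0777, 3.7320, 4.3813, 4.7046, 5.6713`; `N₃ = 6`, `N₂ ≤ 15`: sum
`≤ 8.69`; `N₃ = 6`, `N₂ ≥ 18` (16, 17 are prime powers): `≥ 9.64`; `N₃ = 10`, `N₂ ≤ 12`: `≤ 9.06`;
`N₃ = 10`, `N₂ ≥ 14`: `≥ 9.70`; `N₃ ≥ 12`: `≥ 9.71`. -/
def S_QB15 : Prop := ∀ N₁ N₂ N₃ : ℕ, NPP N₁ → NPP N₂ → NPP N₃ → N₂ < N₁ → N₃ < N₁ → N₁ ∣ 30 →
  ct N₁ 1 ≠ ct 15 2 + ct N₂ 1 + ct N₃ 1

/-- QC15 (80 lines), from S_COT. `m ≥ 21`. `cot (π/2m) - cot (π/m) = 1 / sin (π/m) =: s`. `s` is increasing in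
`m`; `m = 21`: `6.7096`; `23`: `7.344`; `35`: `11.156`; `37`: `11.79`, `39`: `12.43` (`37` is prime). `N ∣ 30`:
`N = 6, 10, 15, 30`: `2.2460 + cot (π/N) = 3.978, 5.324, 6.951, 11.760`. `N = m`:
`cot (π/2m) - 2 cot (π/m) = tan (π/2m) < 1`. `3 N ≤ 2 m`: `s ≥ m/π`, `cot (π/N) ≤ cot (3π/2m) ≤
2m/(3π) - π/(2m)`, the difference is at least `m/(3π) + π/(2m) ≥ 2.30 > 2.2461` for `m ≥ 21`. -/
def S_QC15 : Prop := ∀ m N : ℕ, Odd m → ¬ m ∣ 15 → NPP m → NPP N → (N ∣ 30 ∨ N = m ∨ 3 * N ≤ 2 * m) →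
  ct (2 * m) 1 ≠ ct 15 2 + ct m 1 + ct N 1

/-- QA10 (150 lines), as QA15: P1 for `N₁ ≠ 12` gives `cond N₁ ∣ 10`, so `N₁ = 10`, `N₂ = N₃ = 6`, or
`N₁ = 2m`, one of the others is `m = cond N₁`, odd, and the last one is `m`, or its conductor divides `10`
(then it is `10`) or is a proper divisor of `m`. -/
def S_QA10 : Prop := ∀ N₁ N₂ N₃ L : ℕ, 0 < L → 10 ∣ L → N₁ ∣ L → N₂ ∣ L → N₃ ∣ L →
  NPP N₁ → NPP N₂ → NPP N₃ →
  (∀ u : ℕ, u.Coprime L → ct N₁ u = ct 10 (3 * u) + ct N₂ u + ct N₃ u) →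
  (N₁ = 10 ∧ N₂ = 6 ∧ N₃ = 6) ∨ (∃ m N : ℕ, Odd m ∧ N₁ = 2 * m ∧
    ((N₂ = m ∧ N₃ = N) ∨ (N₂ = N ∧ N₃ = m)) ∧ (N = 10 ∨ N = m ∨ 3 * N ≤ 2 * m))

/-- QB10 (80 lines), from S_COT (or directly). `0.7 < cot (3π/10) < 0.8` (`0.7265`). `cot (π/10) = 3.078 <
2 √3`. `m ≥ 15` (odd, no prime power): `cot (π/2m) - cot (π/m) = 1 / sin (π/m) ≥ m/π ≥ 4.77`;
`0.8 + cot (π/10) < 4`; `N = m`: `cot (π/2m) - 2 cot (π/m) = tan (π/2m) < 0.2`; `3 N ≤ 2 m`: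
`1 / sin (π/m) - cot (3π/2m) ≥ m/π - 2m/(3π) = m/(3π) > 1.5`. -/
def S_QB10 : Prop := ct 10 1 ≠ ct 10 3 + ct 6 1 + ct 6 1 ∧
  ∀ m N : ℕ, Odd m → NPP m → NPP N → (N = 10 ∨ N = m ∨ 3 * N ≤ 2 * m) →
  ct (2 * m) 1 ≠ ct 10 3 + ct m 1 + ct N 1

/-! ## Scaled relations between jump functions -/

/-- FMIN (80 lines). Take `Ft M (·) (m u)` of the relation (`JRel.ft` is the model): by `Ft_comp`
(`Sig/Four.lean`, with `JK_add_int`) `Ft M (fun x => JK X (s x)) h` is `0` if `¬ s ∣ h` and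
`s * Ft (M / s) (JK X) (h / s)` otherwise; as `u` is prime to `M` and `s i ∣ M`, `s i ∣ m u` iff `s i ∣ m` iff
`s i = m` (`m ≤ s i`); then `Ft_JK_unit`. Cancel `I` and `m`. -/
def S_FMIN : Prop := ∀ (n : ℕ) (X : Fin n → List (ℕ × ℕ)) (s : Fin n → ℕ) (a : Fin n → ℝ) (m M : ℕ),
  0 < m → 0 < M → (∀ i, Valid (X i)) → (∀ i, m ≤ s i) → (∀ i, s i * lev (X i) ∣ M) →
  (∀ x : ℝ, ∑ i, a i * (JK (X i) (s i * x) : ℝ) = 0) →
  ∀ u : ℕ, u.Coprime M → ∑ i, (if s i = m then a i * kap (X i) u else 0) = 0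

/-- POS (40 lines), from S_FMIN: if one is nonempty, take the smallest scale `m` of the nonempty ones and
`u = 1`: `kap_pos`. (`kap [] u = 0`, `JK [] x = 0`; if one list is empty drop it.) -/
def S_POS : Prop := ∀ (Y Z : List (ℕ × ℕ)) (b c : ℕ), 0 < b → 0 < c → Valid Y → Valid Z →
  (∀ x : ℝ, JK Y (b * x) + JK Z (c * x) = 0) → Y = [] ∧ Z = []

/-- TWO (60 lines), from S_FMIN: the frequency `min a b` and `u = 1` give `a = b` and `Y ≠ []`; then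
`JK X y = JK Y y` for all real `y`, and `Same X Y` by `hyp_all` (`Sig/Three.lean`; index set `Fin 2` or `Bool`,
coefficients `1, -1`, `JRel`; assume `¬ Same X Y`, use `Same.symm`). -/
def S_TWO : Prop := ∀ (X Y : List (ℕ × ℕ)) (a b : ℕ), 0 < a → 0 < b → Valid X → Valid Y → X ≠ [] →
  (∀ x : ℝ, JK X (a * x) = JK Y (b * x)) → a = b ∧ Same X Y

/-- GCD (80 lines). Let `g = gcd a c`, `a = g a'`, `c = g c'`; put `x = y / g`: `JK Z (c' y)` is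
`JK X (a' y) - JK Y (a' y)`, invariant under `y → y + 1/a'` (`JK_add_int`). So `JK Z (t + c'/a') = JK Z t` for all
`t`, and as `c'` is prime to `a'`, `JK Z (t + 1/a') = JK Z t` (`j c' = 1 + l a'`). Let `M = a' lev Z`; shifting the
summation variable in `Ft M (JK Z) 1 = ∑_{k<M} JK Z (k/M) ee(k/M)` by `M/a'` gives
`Ft M (JK Z) 1 = ee(± 1/a') Ft M (JK Z) 1`, and `Ft M (JK Z) 1 = I kap Z 1 ≠ 0` (`Ft_JK_unit`, `kap_pos`), so
`ee (1/a') = 1`, `a' = 1` (`ee_eq_one_iff`). -/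
def S_GCD : Prop := ∀ (X Y Z : List (ℕ × ℕ)) (a c : ℕ), 0 < a → 0 < c → Valid Z → Z ≠ [] →
  (∀ x : ℝ, JK X (a * x) = JK Y (a * x) + JK Z (c * x)) → a ∣ c

/-- SUM (50 lines), from `last_products_J` (index set `Fin 3`, coefficients `1, -1, -1`): if `t = 0`, the sum of
the coefficients with last product `N` vanishes for every `N ≠ 0`, so their total sum `-1` vanishes
(`lastProd_ne`); if `t ≠ 0`, there are knots with last products `6, 10, 15, 30`, but only three knots. (Or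
directly from `same_product` in `Sig/Same.lean`: the sum of the coefficients vanishes.) -/
def S_SUM : Prop := ∀ X Y Z : List (ℕ × ℕ), Valid X → Valid Y → Valid Z → X ≠ [] → Y ≠ [] → Z ≠ [] →
  ¬ ∀ x : ℝ, JK X x = JK Y x + JK Z x

/-- FRD (120 lines). Fourier coefficients at `d u`: `Ft_du` (`Sig/Star.lean`) for the first two (all of
`r, s, r', s'` are `≥ d`, so they divide `d` only if they are equal to `d`), `Ft_comp` and `Ft_JK_unit` for the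
third (`k ≥ d`). Divide by `I d`. -/
def S_FRD : Prop := ∀ (r s r' s' k d f M : ℕ) (X Y Z : List (ℕ × ℕ)), Valid ((r, s) :: X) →
  Valid ((r', s') :: Y) → Valid Z → 2 ≤ d → r * s = d * f → r' * s' = d * f → d ≤ r → d ≤ s → d ≤ r' →
  d ≤ s' → d ≤ k → 0 < M → lev ((r, s) :: X) ∣ M → lev ((r', s') :: Y) ∣ M → k * lev Z ∣ M →
  (∀ x : ℝ, JK ((r, s) :: X) x = JK ((r', s') :: Y) x + JK Z (k * x)) → ∀ u : ℕ, u.Coprime M →
  (if r = d then kap X u else 0) - (if r = d ∨ s = d then ct f (d * u) else 0) =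
    (if r' = d then kap Y u else 0) - (if r' = d ∨ s' = d then ct f (d * u) else 0) +
      (if k = d then kap Z u else 0)

/-- FRK (100 lines): no relation with `k` smaller than all of `r, s, r', s'`. The Fourier coefficients at `k`
(`u = 1`): `G r s k = I ct (r s) k` (`G_ct`: neither `r` nor `s` divides `k`) for the first two, which cancel, and
`k I kap Z 1 ≠ 0` for the third. -/
def S_FRK : Prop := ∀ (r s r' s' k : ℕ) (X Y Z : List (ℕ × ℕ)), Valid ((r, s) :: X) →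
  Valid ((r', s') :: Y) → Valid Z → Z ≠ [] → r * s = r' * s' → 1 ≤ k → k < r → k < s → k < r' → k < s' →
  ¬ ∀ x : ℝ, JK ((r, s) :: X) x = JK ((r', s') :: Y) x + JK Z (k * x)

/-- NUM (40 lines): `d < r' , s' < f`, as `d f = r' s'`, `d < r', s'`. `f = 5`: `r' s' = 5 d`, `d < 5`, one of
`r', s'` is `≥ 5` as `5` divides one of them. `f = 6`: `d = 5` (coprime), `30 = r' s'` with `5 < r', s' < 6` no.
`f = 12`: `d ∈ {5, 7, 11}`: `r' s' = 60, 84, 132` with `d < r', s' < 12` coprime: none (decidable: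
`interval_cases`). -/
def S_NUM : Prop := ∀ d f r' s' : ℕ, 2 ≤ d → d.Coprime f → r' * s' = d * f → r'.Coprime s' → d < r' →
  d < s' → 7 ≤ f ∧ f ≠ 12 ∧ d + 1 < f

/-- DIF (150 lines), from S_STAR, S_FMIN, S_FRD, S_FRK, S_NUM. `FMIN` with `m = 1` (scales `1, 1, k`), `u = 1`:
`kap` equal, so `r s = r' s' =: n` (`ct_lt_gen` is strict monotonicity). Suppose the pairs are different. Let `d` be the
least of `r, s, r', s'`, `n = d f`; `d` belongs to exactly one of the pairs, the numbers of the other pair are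
`> d`, so NUM gives `7 ≤ f`, `f ≠ 12`, `d + 1 < f`; `d` is prime to `f`. `k ≥ d` by FRK. Now FRD. If `d` is in
`{r', s'}`: `ct f (d u) = [r' = d] kap Y u + [k = d] kap Z u`: contradiction by `ss_pos` (`Sig/Star.lean`). If `d` is in
`{r, s}` and `k ≠ d`: `ct f (d u) = [r = d] kap X u`, `ss_pos`. If `k = d` and (`r ≠ d` or `X = []`):
`ct f (d u) = - kap Z u`, `ss_neg`. Otherwise `kap X u = ct f (d u) + kap Z u` with `X, Z ≠ []`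
(`kap X u = ct N₁ u`, `N₁ = lastProd X`; NPP by `not_primePow`). If `2 d < f` this contradicts STAR; if `2 d > f`
use `ct f (d u) = - ct f ((f - d) u)` (`ct_neg`, `ct_congr`) and STAR with `e = f - d ≥ 2` and the roles of `X`, `Z`
exchanged (`2 d = f` is impossible as `d` is prime to `f ≥ 7`). -/
def S_DIF : Prop := ∀ (r s r' s' k : ℕ) (X Y Z : List (ℕ × ℕ)), Valid ((r, s) :: X) →
  Valid ((r', s') :: Y) → Valid Z → Z ≠ [] → 2 ≤ k →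
  (∀ x : ℝ, JK ((r, s) :: X) x = JK ((r', s') :: Y) x + JK Z (k * x)) →
  (r = r' ∧ s = s') ∨ (r = s' ∧ s = r')

/-- SG (15 lines). Induction on the common part. -/
def S_SG : Prop := ∀ X Y : List (ℕ × ℕ), Same X Y → gen2 X = gen2 Y

/-- T3 (150 lines), from S_FMIN, S_POS, S_TWO, S_GCD, S_SUM, S_DIF, S_SG. Strong induction on the total length
(for all `a, b, c`). `X = []`: POS, all empty. `Y = []` or `Z = []`: TWO (or POS if both are empty) and SG. All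
nonempty: let `m = min a b c`; FMIN at `u = 1` with `kap_pos` gives `a = m` and (`b = m` or `c = m`). The
statement is symmetric in `(Y, b)`, `(Z, c)`, so let `b = a`. GCD: `c = a k`; with `y = a x`:
`JK X y = JK Y y + JK Z (k y)` for all real `y`. `k = 1`: SUM. `k ≥ 2`: `X = (r, s) :: X'`, `Y = (r', s') :: Y'`, DIF
gives `{r, s} = {r', s'}`, so `J r s = J r' s'` (`J_swap`) cancels, `JK X' (r y) = JK Y' (r' y) + JK Z (k y)`;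
induction: `r gen2 X' = r' gen2 Y' + k gen2 Z`, and `(r-1)(s-1) = (r'-1)(s'-1)`. -/
def S_T3 : Prop := ∀ (X Y Z : List (ℕ × ℕ)) (a b c : ℕ), 0 < a → 0 < b → 0 < c → Valid X → Valid Y →
  Valid Z → (∀ x : ℝ, JK X (a * x) = JK Y (b * x) + JK Z (c * x)) →
  a * gen2 X = b * gen2 Y + c * gen2 Z

/-! ## The exceptional relation -/

/-- FL (80 lines). As `Ft_du` in `Sig/Star.lean` (`Ft_JK_cons`, `G_ct`, `G_swap`): for a prime `l` and `u` prime to `M`,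
`p ∣ l u` iff `p = l`, `q ∣ l u` iff `q = l`, not both. -/
def S_FL : Prop := ∀ (p q l M : ℕ) (L : List (ℕ × ℕ)), Valid ((p, q) :: L) → l.Prime → 0 < M →
  lev ((p, q) :: L) ∣ M → ∀ u : ℕ, u.Coprime M →
  Ft M (JK ((p, q) :: L)) (l * u) = Complex.I * ((ct (p * q) (l * u) -
    (if p = l then (l : ℝ) * ct q (l * u) else 0) - (if q = l then (l : ℝ) * ct p (l * u) else 0) +
    (if p = l then (l : ℝ) * kap L u else 0) : ℝ) : ℂ)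

/-- the exceptional situation: a relation with last products `30`, `6`, `10`, `15` -/
def Exc (p q a₁ a₂ b₁ b₂ c₁ c₂ : ℕ) (L A B C : List (ℕ × ℕ)) : Prop :=
  Valid ((p, q) :: L) ∧ Valid ((a₁, a₂) :: A) ∧ Valid ((b₁, b₂) :: B) ∧ Valid ((c₁, c₂) :: C) ∧
  p * q = 30 ∧ a₁ * a₂ = 6 ∧ b₁ * b₂ = 10 ∧ c₁ * c₂ = 15 ∧
  ∀ x : ℝ, JK ((p, q) :: L) x = JK ((a₁, a₂) :: A) x + JK ((b₁, b₂) :: B) x + JK ((c₁, c₂) :: C) x

/-- a common level -/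
def LEV (p q a₁ a₂ b₁ b₂ c₁ c₂ : ℕ) (L A B C : List (ℕ × ℕ)) (M : ℕ) : Prop :=
  0 < M ∧ 900 ∣ M ∧ lev ((p, q) :: L) ∣ M ∧ lev ((a₁, a₂) :: A) ∣ M ∧ lev ((b₁, b₂) :: B) ∣ M ∧
  lev ((c₁, c₂) :: C) ∣ M

/-- EXJ (40 lines): the exceptional relation for the jump functions, from `exceptional` (`Sig/Last.lean`) by
`jump_relation` (index set `Fin 4`), then unfold `JK`. -/
def S_EXJ : Prop := ∀ x : ℝ, J 5 6 x = J 2 3 x + J 2 5 x + J 3 5 x + J 2 3 (5 * x)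

/-- E2 (80 lines), from S_FL, S_EXJ. Take `Ft M (·) (2 u)` of the given relation and of
`JK [(5,6)] x = JK [(2,3)] x + JK [(2,5)] x + JK [(5,3),(2,3)] x` (EXJ) and subtract: as `a₁ a₂ = 6` etc. the terms
`ct 30 (2u)`, `ct 6 (2u) - 2 ct 3 (2u)`, `ct 10 (2u) - 2 ct 5 (2u)`, `ct 15 (2u)` cancel (if `l = 2` is one of the two
numbers of the pair with product `N`, the other one is `N / 2`). Divide by `2`. -/
def S_E2 : Prop := ∀ (p q a₁ a₂ b₁ b₂ c₁ c₂ : ℕ) (L A B C : List (ℕ × ℕ)) (M : ℕ),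
  Exc p q a₁ a₂ b₁ b₂ c₁ c₂ L A B C → LEV p q a₁ a₂ b₁ b₂ c₁ c₂ L A B C M → ∀ u : ℕ, u.Coprime M →
  (if p = 2 then kap L u else 0) = (if p = 2 ∨ q = 2 then ct 15 (2 * u) else 0) +
    (if a₁ = 2 then kap A u else 0) + (if b₁ = 2 then kap B u else 0)

/-- E3 (80 lines), the same with `3 u`. -/
def S_E3 : Prop := ∀ (p q a₁ a₂ b₁ b₂ c₁ c₂ : ℕ) (L A B C : List (ℕ × ℕ)) (M : ℕ),
  Exc p q a₁ a₂ b₁ b₂ c₁ c₂ L A B C → LEV p q a₁ a₂ b₁ b₂ c₁ c₂ L A B C M → ∀ u : ℕ, u.Coprime M →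
  (if p = 3 then kap L u else 0) = (if p = 3 ∨ q = 3 then ct 10 (3 * u) else 0) +
    (if a₁ = 3 then kap A u else 0) + (if c₁ = 3 then kap C u else 0)

/-- E5 (80 lines), the same with `5 u`; here the known relation contributes `-5 ct 6 (5u)` (from `T(5,6)`) and
`5 kap [(2,3)] u = 5 ct 6 u`, and `ct 6 (5 u) = - ct 6 u` (`5 u ≡ - u mod 6`). -/
def S_E5 : Prop := ∀ (p q a₁ a₂ b₁ b₂ c₁ c₂ : ℕ) (L A B C : List (ℕ × ℕ)) (M : ℕ),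
  Exc p q a₁ a₂ b₁ b₂ c₁ c₂ L A B C → LEV p q a₁ a₂ b₁ b₂ c₁ c₂ L A B C M → ∀ u : ℕ, u.Coprime M →
  (if p = 5 ∨ q = 5 then ct 6 u else 0) + (if p = 5 then kap L u else 0) =
    (if b₁ = 5 then kap B u else 0) + (if c₁ = 5 then kap C u else 0)

/-- X15 (80 lines), from S_E2, S_E3, S_E5, S_STAR, S_QA15, S_QB15, S_QC15. `{p, q} = {2, 15}`. E3 at `u = 1`
(`kap_pos`): `a₁ = 3 → A = []`, `c₁ = 3 → C = []`; E5: `b₁ = 5 → B = []`. E2: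
`[p = 2] kap L u = ct 15 (2u) + kap A u + kap B u` (the brackets `[a₁ = 2]`, `[b₁ = 2]` can be dropped). At `u = 1` the right
hand side is positive, so `p = 2`, `L ≠ []`. `A = B = []`: `ss_pos` (`f = 15`, `d = 2`). One of `A`, `B` empty: STAR
with `f = 15`, `e = 2`. None empty: QA15, then QB15 or QC15. -/
def S_X15 : Prop := ∀ (p q a₁ a₂ b₁ b₂ c₁ c₂ : ℕ) (L A B C : List (ℕ × ℕ)),
  Exc p q a₁ a₂ b₁ b₂ c₁ c₂ L A B C → ¬ ((p = 2 ∧ q = 15) ∨ (p = 15 ∧ q = 2))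

/-- X10 (80 lines), from S_E2, S_E3, S_E5, S_STAR, S_QA10, S_QB10. `{p, q} = {3, 10}`. E2 at `u = 1`:
`a₁ = 2 → A = []`, `b₁ = 2 → B = []`; E5: `c₁ = 5 → C = []`. E3:
`[p = 3] kap L u = ct 10 (3u) + kap A u + kap C u`; then as in X15 (`f = 10`, `d = 3`). -/
def S_X10 : Prop := ∀ (p q a₁ a₂ b₁ b₂ c₁ c₂ : ℕ) (L A B C : List (ℕ × ℕ)),
  Exc p q a₁ a₂ b₁ b₂ c₁ c₂ L A B C → ¬ ((p = 3 ∧ q = 10) ∨ (p = 10 ∧ q = 3))

/-- X6 (100 lines), from S_E2, S_E3, S_EXJ. `{p, q} = {5, 6}`. E2 at `u = 1`: `a₁ = 2 → A = []`, `b₁ = 2 → B = []`;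
E3: `a₁ = 3 → A = []`, `c₁ = 3 → C = []`. As `a₁ ∈ {2, 3}`, `A = []`. Subtract EXJ (`J_swap`) from the relation; the last terms
are `JK B (b₁ x)` with `b₁ = 5` or `B = []`, `JK C (c₁ x)` with `c₁ = 5` or `C = []`. -/
def S_X6 : Prop := ∀ (p q a₁ a₂ b₁ b₂ c₁ c₂ : ℕ) (L A B C : List (ℕ × ℕ)),
  Exc p q a₁ a₂ b₁ b₂ c₁ c₂ L A B C → ((p = 5 ∧ q = 6) ∨ (p = 6 ∧ q = 5)) →
  A = [] ∧ (b₁ = 5 ∨ B = []) ∧ (c₁ = 5 ∨ C = []) ∧
  ∀ x : ℝ, J 2 3 (5 * x) + JK L (p * x) = JK B (5 * x) + JK C (5 * x)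

/-- G6 (40 lines), from S_GCD-like reasoning: `p = 6` gives `L = []`. `JK L (6 x)` is invariant under
`x → x + 1/5`, hence `JK L` is invariant under `1/5` (`6/5 = 1 + 1/5`); the argument at the end of GCD gives `L = []`. (Or
apply S_GCD: not directly.) -/
def S_G6 : Prop := ∀ L B C : List (ℕ × ℕ), Valid L →
  (∀ x : ℝ, J 2 3 (5 * x) + JK L (6 * x) = JK B (5 * x) + JK C (5 * x)) → L = []

/-- G5 (120 lines), from S_T3, S_SUM, S_POS, S_FMIN. `L = []`: T3 with `X = [(2,3)]`. `L ≠ []`: if `B = []` then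
`C ≠ []` (POS) and `JK C = JK [(2,3)] + JK L` contradicts SUM; similarly `C = []`. So `B, C ≠ []`. By
`last_products_J` (index set `Fin 4`, coefficients `1, 1, -1, -1` on `[(2,3)], L, B, C`): `t = 0` (if `t ≠ 0` the last
products are `6, 10, 15, 30` in some order and three of the coefficients agree), so the sum of the coefficients at the last
product `6` vanishes, and `B` or `C` has last product `6`, say `B = (w, w') :: B'`, `{w, w'} = {2, 3}`. Then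
`JK L y = JK C y + JK B' (w y)`, and T3 gives `gen2 L = gen2 C + w gen2 B'`, `gen2 B = 2 + w gen2 B'`. -/
def S_G5 : Prop := ∀ L B C : List (ℕ × ℕ), Valid L → Valid B → Valid C →
  (∀ y : ℝ, J 2 3 y + JK L y = JK B y + JK C y) → gen2 B + gen2 C = 2 + gen2 L

/-- TOP (120 lines), from `last_products_J` with index set `Option (Fin n)` (coefficient `1` at `none`, `-1` at
`some i`). If `t = 0`: for every `N ≠ 0` the coefficients of the knots with last product `N` have sum `0`; for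
`N = lastProd K` there is exactly one `i` with `lastProd (K' i) = N`, for other `N` there is none; so `n = 1`. If
`t ≠ 0`: at `N = 30`: `[lastProd K = 30] - #{i : lastProd (K' i) = 30} = t`; at `6, 10, 15`: the same is `-t`; elsewhere `0`.
If `lastProd K ∉ {6, 10, 15, 30}` then there is some `N = lastProd K` with `1 - #.. = 0` and `t = -#(30) ≤ 0`,
`-t = -#(6) ≤ 0`: `t = 0`. If `lastProd K = 6`: `-t = 1 - #(6)`, `-t = -#(10) ≤ 0`, `t = -#(30) ≤ 0`: `t = 0`; the same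
for `10`, `15`. `lastProd K = 30`: `t = 1 - #(30)`, `t = #(6) = #(10) = #(15) ≥ 0`, `t ≤ 1`, so `t = 1` and the
numbers are `0, 1, 1, 1`. -/
def S_TOP : Prop := ∀ (K : List (ℕ × ℕ)) (n : ℕ) (K' : Fin n → List (ℕ × ℕ)), K ≠ [] → Valid K →
  (∀ i, K' i ≠ [] ∧ Valid (K' i)) → (∀ x : ℝ, JK K x = ∑ i, JK (K' i) x) →
  n = 1 ∨ (n = 3 ∧ lastProd K = 30 ∧ ∃ i j k : Fin n, i ≠ j ∧ i ≠ k ∧ j ≠ k ∧ lastProd (K' i) = 6 ∧
    lastProd (K' j) = 10 ∧ lastProd (K' k) = 15)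

/-- The final theorem (helper80). -/
def S_FIN : Prop := ∀ (K : List (ℕ × ℕ)) (n : ℕ) (K' : Fin n → List (ℕ × ℕ)), K ≠ [] → Valid K →
  (∀ i, K' i ≠ [] ∧ Valid (K' i)) → (∀ x : ℝ, JK K x = ∑ i, JK (K' i) x) →
  (n = 1 ∧ ∀ i, Same K (K' i)) ∨ (n = 3 ∧ ∃ i j k : Fin n, i ≠ j ∧ i ≠ k ∧ j ≠ k ∧
    (K' i = [(2, 3)] ∨ K' i = [(3, 2)]) ∧ lastProd (K' j) = 10 ∧ lastProd (K' k) = 15 ∧
    (∃ L, K = (5, 6) :: L ∨ K = (6, 5) :: L) ∧ ∑ i, gen2 (K' i) = gen2 K + 4)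

end Pool.Agent.H80.IR
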