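import Pool.Agent.H80.IR.Stm
set_option autoImplicit false

/-!
# Project IR, part 2: extreme rays (stubs)

Relations `σ(K) = ∑ c_j σ(K_j)` with arbitrary real `c_j > 0`, any number of knots. Every `S_NAME` is to
be proved in `Pool/Agent/H80/IR/T/NAME.lean`, `theorem Pool.Agent.H80.IR.NAME.main`.
-/

namespace Pool.Agent.H80.IR

open Pool.Agent.H80.Sig Finset

/-- RR (200 lines): copy of the proof of `two_terms` (end of `Sig/Cot.lean`) with many terms.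
(1) `f ∣ M₀` or `f = 2 g`, `g` odd, `g ∣ M₀`: as `hS2` there: otherwise there is a unit `w ≡ 1 mod M₀` with
`d w ≡ x mod f`, `d < x < f` (here `4 d < f` is used); the left hand side at `w` is the one at `1`, but on
the right hand side `ct f x < ct f d` and `ct (M i) w ≤ ct (M i) 1` (`ct_le_one`). (2) For all `i ∈ T`:
`M i ∣ M₀` or `M i = 2 g`, `g` odd, `g ∣ M₀`: as `hS3` there (a unit `w ≡ 1 mod M₀`, so `≡ 1 mod f` by (1), with
`w ≡ 1 + j g mod M i`; the `i`-th term decreases strictly, the others do not increase). (3) Some `i ∈ T` has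
`M₀ < M i`: otherwise `ct (M i) 1 ≤ ct M₀ 1`, and `ct f d < ct M₀ 1` (as `e2` in `hlt` there), so the right hand
side at `u = 1` is `< (A + ∑ c) ct M₀ 1 ≤ ct M₀ 1`. (4) So `M i = 2 g`, `g ∣ M₀`, `M₀ < 2 g`: `g = M₀` is odd and
`2 M₀ ∣ L`. (5) Take a unit `w ≡ M₀ - 2 mod 2 M₀` (`lift_unit`). The left hand side is `- ct M₀ 2 < 0`. For `i ∈ T`:
if `M i ∣ M₀`, `ct (M i) w = - ct (M i) 2 ≥ - ct M₀ 2` (`M i` is odd, `M i ≤ M₀`); if `M i = 2 g`, `M₀ = g k`,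
`k` odd: `M₀ - 2 ≡ g - 2 mod 2 g`, `ct (M i) w = ct (2 g) (g - 2) > 0`. And `ct f (d w) > - ct M₀ 2` as in the
end of the proof of `two_terms` (`- ct f (2 d)` or `ct f (g - 2 d) > 0`). So the right hand side is
`> - (A + ∑ c) ct M₀ 2 ≥ - ct M₀ 2`. -/
def S_RR : Prop := ∀ (ι : Type) (T : Finset ι) (M : ι → ℕ) (c : ι → ℝ) (M₀ d f L : ℕ) (A : ℝ),
  0 < L → f ∣ L → M₀ ∣ L → (∀ i ∈ T, M i ∣ L ∧ 6 ≤ M i ∧ 0 < c i) → 6 ≤ M₀ → 2 ≤ d → 4 * d < f →
  d.Coprime f → 0 < A → A + ∑ i ∈ T, c i ≤ 1 →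
  ¬ ∀ u : ℕ, u.Coprime L → ct M₀ u = A * ct f (d * u) + ∑ i ∈ T, c i * ct (M i) u

/-- KLP (120 lines). `indep_full` (`Sig/CotIndep.lean`; `K N h = I ct N h` by `K_eq_ct`; `D` the set of all
last products, `A N = [N = lastProd X] - ∑_{lastProd (Y i) = N} c i`; `not_primePow`) gives `t = A 30` with
`A 30 = t`, `A 6 = A 10 = A 15 = -t`, `A N = 0` otherwise. If `lastProd X ≠ 30`: `t = A 30 ≤ 0`, and one of
`6, 10` is not `lastProd X`, so `-t ≤ 0`; `t = 0`. If `lastProd X = 30`: `∑ c = (1 - t) + 3 t = 1 + 2 t ≤ 1`, and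
`t = ∑_{lastProd (Y i) = 6} c i ≥ 0`, so `t = 0`. With `t = 0`: no `Y i` has a last product `≠ lastProd X` (the
`c i` are positive), and the sum of the `c i` is `1`. -/
def S_KLP : Prop := ∀ (ι : Type) (T : Finset ι) (X : List (ℕ × ℕ)) (Y : ι → List (ℕ × ℕ))
  (c : ι → ℝ) (M : ℕ), 0 < M → X ≠ [] → Valid X → lev X ∣ M →
  (∀ i ∈ T, Y i ≠ [] ∧ Valid (Y i) ∧ lev (Y i) ∣ M ∧ 0 < c i) → ∑ i ∈ T, c i ≤ 1 →
  (∀ u : ℕ, u.Coprime M → kap X u = ∑ i ∈ T, c i * kap (Y i) u) →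
  (∀ i ∈ T, lastProd (Y i) = lastProd X) ∧ ∑ i ∈ T, c i = 1

/-- L30 (80 lines), from `last_products_J` (`Sig/Same.lean`) with index set `Option ι` (`insertNone`, or map) and
coefficients `1`, `- c i`. If `lastProd K ≠ 30`: the value at `30` gives `t ≤ 0`, the value at one of `6, 10` which
is not `lastProd K` gives `t ≥ 0`. With `t = 0` the sum of all coefficients is zero (`lastProd_ne`). -/
def S_L30 : Prop := ∀ (ι : Type) (S : Finset ι) (K : List (ℕ × ℕ)) (K' : ι → List (ℕ × ℕ))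
  (c : ι → ℝ), K ≠ [] → Valid K → (∀ i ∈ S, K' i ≠ [] ∧ Valid (K' i) ∧ 0 < c i) →
  (∀ x : ℝ, (JK K x : ℝ) = ∑ i ∈ S, c i * (JK (K' i) x : ℝ)) → lastProd K = 30 ∨ ∑ i ∈ S, c i = 1

/-- HEADS (200 lines), from S_RR: the model is `hyp_all` in `Sig/Three.lean` (lines 217-620), here without
any bound on the number of knots. Let `N = lastProd K`. Use `star` (`Sig/Star.lean`) with index set `Option ι`
and coefficients `1`, `- c i` (sum zero). Let `d` be the least of all `hd1`, `hd2` (of `K` and of the `K' i`), `N = d f`, `d`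
prime to `f`. If `d` belongs to all pairs we are done. Otherwise:
(a) `d` is not in the pair of `K`: then `A' ct f (d u) = ∑_{hd1 (K' i) = d} c i kap (tail) u`,
`A' = ∑_{d ∈ pair of K' i} c i > 0`: `ss_pos`.
(b) `d` is in the pair of `K`; `A = 1 - ∑_{d ∈ pair of K' i} c i = ∑_{d ∉ pair} c i > 0` and
`A ct f (d u) = [hd1 K = d] kap K.tail u - ∑_{hd1 (K' i) = d} c i kap (K' i).tail u`. If `hd1 K ≠ d` or `K.tail = []`:
`ss_neg` (`d + 1 < f` as the other pairs lie strictly between `d` and `f`). Otherwise let `d₂` be the least number of the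
pairs of the `K' i` not containing `d`, `N = d₂ f₂`, `d < d₂ < f₂ < f`. If `d ∤ d₂`: `star` at `d₂` (neither `d` nor
`f > d₂` divides `d₂`, so `K` and the `K' i` with `d` in the pair do not contribute; for the others a number which divides `d₂`
is `d₂`): `A₂ ct f₂ (d₂ u) = ∑ c i kap (K' i).tail u` with positive coefficients, `ss_pos`. If `d ∣ d₂`: `2 d ≤ d₂` and
`d₂ ^ 2 < d₂ f₂ = d f`, so `4 d < f`, and RR (`T` = the `i` with `hd1 (K' i) = d` and `(K' i).tail ≠ []`, `M i` = last product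
of the tail, `A + ∑_T c ≤ 1`) is a contradiction. -/
def S_HEADS : Prop := ∀ (ι : Type) (S : Finset ι) (K : List (ℕ × ℕ)) (K' : ι → List (ℕ × ℕ))
  (c : ι → ℝ), K ≠ [] → Valid K → (∀ i ∈ S, K' i ≠ [] ∧ Valid (K' i) ∧ 0 < c i) →
  (∀ i ∈ S, lastProd (K' i) = lastProd K) → ∑ i ∈ S, c i = 1 →
  (∀ x : ℝ, (JK K x : ℝ) = ∑ i ∈ S, c i * (JK (K' i) x : ℝ)) →
  ∀ i ∈ S, (hd1 (K' i) = hd1 K ∧ hd2 (K' i) = hd2 K) ∨ (hd1 (K' i) = hd2 K ∧ hd2 (K' i) = hd1 K)

/-- ALL (150 lines), from S_KLP. Let `p = hd1 K`, `q = hd2 K` (coprime, so `p ≠ q`), `X = K.tail`,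
`Y i = (K' i).tail`. The functions `J` of the heads cancel (`J_swap`, sum of the `c i` is `1`):
`JK X (p x) = ∑_{hd1 (K' i) = p} c i JK (Y i) (p x) + ∑_{hd1 (K' i) = q} c i JK (Y i) (q x)`. Take the Fourier
coefficients at `m u`, `m = min p q` (`Ft_comp`, `Ft_JK_unit`, as in `Pool/Agent/H80/IR/T/FMIN.lean`; or S_FMIN with
`Fin`-indexed lists; or directly `star` for `d = p`, `d = q`). If `q < p`: `0 = ∑_{hd1 = q} c i kap (Y i) u`, so these `Y i` are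
empty (`kap_pos` at `u = 1`), and then at `p u`: `kap X u = ∑_{hd1 = p} c i kap (Y i) u`. If `p < q`: at `p u` directly
`kap X u = ∑_{hd1 = p} c i kap (Y i) u`. If `X ≠ []`: KLP with `T = {i | hd1 (K' i) = p, Y i ≠ []}` gives `∑_T c = 1`, so
`T = S`; this is the second alternative (put `x = y / p`). If `X = []`: `u = 1` shows that all `Y i` with `hd1 = p` are empty, and
then those with `hd1 = q`. -/
def S_ALL : Prop := ∀ (ι : Type) (S : Finset ι) (K : List (ℕ × ℕ)) (K' : ι → List (ℕ × ℕ))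
  (c : ι → ℝ), K ≠ [] → Valid K → (∀ i ∈ S, K' i ≠ [] ∧ Valid (K' i) ∧ 0 < c i) →
  ∑ i ∈ S, c i = 1 → (∀ x : ℝ, (JK K x : ℝ) = ∑ i ∈ S, c i * (JK (K' i) x : ℝ)) →
  (∀ i ∈ S, (hd1 (K' i) = hd1 K ∧ hd2 (K' i) = hd2 K) ∨
    (hd1 (K' i) = hd2 K ∧ hd2 (K' i) = hd1 K)) →
  (K.tail = [] ∧ ∀ i ∈ S, (K' i).tail = []) ∨
  (K.tail ≠ [] ∧ (∀ i ∈ S, hd1 (K' i) = hd1 K ∧ hd2 (K' i) = hd2 K ∧ (K' i).tail ≠ []) ∧
    ∀ x : ℝ, (JK K.tail x : ℝ) = ∑ i ∈ S, c i * (JK (K' i).tail x : ℝ))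

/-- EXT (80 lines), from S_KLP, S_HEADS, S_ALL: induction on the length of `K`. The Fourier coefficients at
`u` (`JRel.ft`, `Ft_JK_unit`) and KLP: all last products agree and `∑ c = 1`. HEADS, then ALL: in the first alternative all
knots have length one and the same pair up to order (`Same`); in the second one apply the induction hypothesis to the tails
and `Same.cons`. -/
def S_EXT : Prop := ∀ (ι : Type) (S : Finset ι) (K : List (ℕ × ℕ)) (K' : ι → List (ℕ × ℕ))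
  (c : ι → ℝ), K ≠ [] → Valid K → (∀ i ∈ S, K' i ≠ [] ∧ Valid (K' i) ∧ 0 < c i) →
  ∑ i ∈ S, c i ≤ 1 → (∀ x : ℝ, (JK K x : ℝ) = ∑ i ∈ S, c i * (JK (K' i) x : ℝ)) →
  ∀ i ∈ S, Same K (K' i)

end Pool.Agent.H80.IR
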