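import Pool.Agent.H80.IR.Stm2
set_option autoImplicit false

/-!
# Project IR, part 3: extreme rays, last product 30 (stubs)
-/

namespace Pool.Agent.H80.IR

open Pool.Agent.H80.Sig Finset

/-- The relation `σ(K) = ∑ c_i σ(K_i)` for the jump functions, `c_i > 0`. -/
def PosRel {ι : Type} (S : Finset ι) (K : List (ℕ × ℕ)) (K' : ι → List (ℕ × ℕ)) (c : ι → ℝ) : Prop :=
  K ≠ [] ∧ Valid K ∧ (∀ i ∈ S, K' i ≠ [] ∧ Valid (K' i) ∧ 0 < c i) ∧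
    ∀ x : ℝ, (JK K x : ℝ) = ∑ i ∈ S, c i * (JK (K' i) x : ℝ)

/-- The weights in the exceptional case. -/
def Wt {ι : Type} (S : Finset ι) (K : List (ℕ × ℕ)) (K' : ι → List (ℕ × ℕ)) (c : ι → ℝ) (t : ℝ) :
    Prop :=
  0 < t ∧ lastProd K = 30 ∧
    (∀ i ∈ S, lastProd (K' i) = 6 ∨ lastProd (K' i) = 10 ∨ lastProd (K' i) = 15 ∨
      lastProd (K' i) = 30) ∧
    ∑ i ∈ S with lastProd (K' i) = 30, c i = 1 - t ∧ ∑ i ∈ S with lastProd (K' i) = 6, c i = t ∧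
    ∑ i ∈ S with lastProd (K' i) = 10, c i = t ∧ ∑ i ∈ S with lastProd (K' i) = 15, c i = t

/-- WT (100 lines), from `last_products_J` as in `Pool/Agent/H80/IR/T/L30.lean` (index set `Option ι`, coefficients
`1`, `- c i`): if `t = 0` the sum of all `c i` is `1`. If `t ≠ 0`: `lastProd K = 30` (see L30), the value at `6` gives
`t = ∑_{lastProd = 6} c i > 0`, etc. (the coefficients at other products vanish and all `c i` are positive). -/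
def S_WT : Prop := ∀ (ι : Type) (S : Finset ι) (K : List (ℕ × ℕ)) (K' : ι → List (ℕ × ℕ))
  (c : ι → ℝ), PosRel S K K' c → ∑ i ∈ S, c i = 1 ∨ ∃ t : ℝ, Wt S K K' c t

/-- E2R (120 lines), from S_FL, S_EXJ; the model is `Pool/Agent/H80/IR/T/E2.lean`. Take `Ft M (·) (2 u)` of the relation
with S_FL (`K = (hd1 K, hd2 K) :: K.tail`, `list_eq`; `lastProd = hd1 * hd2`). With the abbreviations
`b N` for the part of S_FL which depends on the product `N` only (`N = 30`: `ct 30 (2u)`; `6`: `ct 6 (2u) - 2 ct 3 (2u)`; `10`: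
`ct 10 (2u) - 2 ct 5 (2u)`; `15`: `ct 15 (2u)`) the weights give `t (b 30 - b 6 - b 10 - b 15)`, which is zero by the
relation EXJ at `2 u`. Divide by `2`. -/
def S_E2R : Prop := ∀ (ι : Type) (S : Finset ι) (K : List (ℕ × ℕ)) (K' : ι → List (ℕ × ℕ))
  (c : ι → ℝ) (t : ℝ) (M : ℕ), PosRel S K K' c → Wt S K K' c t → 0 < M → 900 ∣ M → lev K ∣ M →
  (∀ i ∈ S, lev (K' i) ∣ M) → ∀ u : ℕ, u.Coprime M →
  (if hd1 K = 2 then kap K.tail u else 0) - (if hd1 K = 2 ∨ hd2 K = 2 then ct 15 (2 * u) else 0) =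
    ∑ i ∈ S, c i * ((if hd1 (K' i) = 2 then kap (K' i).tail u else 0) -
      (if lastProd (K' i) = 30 ∧ (hd1 (K' i) = 2 ∨ hd2 (K' i) = 2) then ct 15 (2 * u) else 0))

/-- E3R (120 lines), the same with `3 u`: `b 30 = ct 30 (3u)`, `b 6 = ct 6 (3u) - 3 ct 2 (3u)`,
`b 10 = ct 10 (3u)`, `b 15 = ct 15 (3u) - 3 ct 5 (3u)`. -/
def S_E3R : Prop := ∀ (ι : Type) (S : Finset ι) (K : List (ℕ × ℕ)) (K' : ι → List (ℕ × ℕ))
  (c : ι → ℝ) (t : ℝ) (M : ℕ), PosRel S K K' c → Wt S K K' c t → 0 < M → 900 ∣ M → lev K ∣ M →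
  (∀ i ∈ S, lev (K' i) ∣ M) → ∀ u : ℕ, u.Coprime M →
  (if hd1 K = 3 then kap K.tail u else 0) - (if hd1 K = 3 ∨ hd2 K = 3 then ct 10 (3 * u) else 0) =
    ∑ i ∈ S, c i * ((if hd1 (K' i) = 3 then kap (K' i).tail u else 0) -
      (if lastProd (K' i) = 30 ∧ (hd1 (K' i) = 3 ∨ hd2 (K' i) = 3) then ct 10 (3 * u) else 0))

/-- E5R (120 lines), the same with `5 u`: `b 30 = ct 30 (5u)`, `b 6 = ct 6 (5u)`,
`b 10 = ct 10 (5u) - 5 ct 2 (5u)`, `b 15 = ct 15 (5u) - 5 ct 3 (5u)`; EXJ at `5 u` gives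
`b 30 - 5 ct 6 (5u) = b 6 + b 10 + b 15 + 5 ct 6 u` (the last term from the companion `T(2,3)`), and `ct 6 (5u) = - ct 6 u`. -/
def S_E5R : Prop := ∀ (ι : Type) (S : Finset ι) (K : List (ℕ × ℕ)) (K' : ι → List (ℕ × ℕ))
  (c : ι → ℝ) (t : ℝ) (M : ℕ), PosRel S K K' c → Wt S K K' c t → 0 < M → 900 ∣ M → lev K ∣ M →
  (∀ i ∈ S, lev (K' i) ∣ M) → ∀ u : ℕ, u.Coprime M →
  (if hd1 K = 5 then kap K.tail u else 0) + (if hd1 K = 5 ∨ hd2 K = 5 then ct 6 u else 0) =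
    ∑ i ∈ S, c i * ((if hd1 (K' i) = 5 then kap (K' i).tail u else 0) +
      (if lastProd (K' i) = 30 ∧ (hd1 (K' i) = 5 ∨ hd2 (K' i) = 5) then ct 6 u else 0))

/-- the relation of QR15, QR10, with positive coefficients -/
def Tw {ι : Type} (T : Finset ι) (M : ι → ℕ) (c : ι → ℝ) (M₀ d f L : ℕ) (A : ℝ) : Prop :=
  0 < L ∧ f ∣ L ∧ M₀ ∣ L ∧ NPP M₀ ∧ (∀ i ∈ T, M i ∣ L ∧ NPP (M i) ∧ 0 < c i) ∧ d.Coprime f ∧ 0 < A ∧
    ∀ u : ℕ, u.Coprime L → ct M₀ u = A * ct f (d * u) + ∑ i ∈ T, c i * ct (M i) u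

/-- STEP2 (60 lines): step (2) of the proof of RR (`Pool/Agent/H80/IR/T/RR.lean`, or `hS3` in `two_terms`): otherwise
there is a unit `w ≡ 1 mod M₀`, `w ≡ 1 + j g mod M i`, for which the `i`-th term decreases strictly and the other
ones do not increase. -/
def S_STEP2 : Prop := ∀ (ι : Type) (T : Finset ι) (M : ι → ℕ) (c : ι → ℝ) (M₀ d f L : ℕ) (A : ℝ),
  Tw T M c M₀ d f L A → (∀ u : ℕ, u.Coprime L → u ≡ 1 [MOD M₀] → ct f (d * u) = ct f d) →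
  ∀ i ∈ T, M i ∣ M₀ ∨ ∃ g, Odd g ∧ M i = 2 * g ∧ g ∣ M₀

/-- TOPC (120 lines). Let `g = cond M₀`. For an odd primitive `χ` mod `g` (`exists_odd_prim`) multiply the relation by
`χ v` and sum over the units `v` (tools: `Pool/Agent/H80/IR/T/P1.lean`, `kill`). The term of `f` vanishes
(`T_kill`, `¬ g ∣ f`), as do those with `¬ g ∣ M i`. If `g ∣ M i` then `M i ∈ {g, 2 g}` (`M i = 2 g` only for `g` odd). `g` even:
`M₀ = g`, `(1 - ∑_{M i = M₀} c i) T L χ g = 0`, `T_self_ne`. `g` odd: with `α = [M₀ = g] - ∑_{M i = g} c i`,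
`β = [M₀ = 2 g] - ∑_{M i = 2 g} c i` (`T_two`): `α + β (2 - χ 2) = 0`, for two characters with different values at `2`
(`exists_two_prim`), so `α = β = 0`. -/
def S_TOPC : Prop := ∀ (ι : Type) (T : Finset ι) (M : ι → ℕ) (c : ι → ℝ) (M₀ d f L : ℕ) (A : ℝ),
  Tw T M c M₀ d f L A → (∀ i ∈ T, M i ∣ M₀ ∨ ∃ g, Odd g ∧ M i = 2 * g ∧ g ∣ M₀) →
  ¬ Sig.cond M₀ ∣ f → M₀ ≠ 12 → Sig.cond M₀ ≠ 3 → Sig.cond M₀ ≠ 15 →
  ∑ i ∈ T with M i = M₀, c i = 1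

/-- LIN (80 lines). Let `p_u = ct 15 u`, `a = ct 10 1`, `b = ct 10 3`, `s = ct 6 1`; `ct 6 7 = s`, `ct 6 11 = - s`, `ct 6 13 = s`,
`ct 10 7 = - b`, `ct 10 11 = a`, `ct 10 13 = b` (`ct_congr`, `ct_neg`). Write `S = p₁ - p₇ - p₁₁ - p₁₃`, `P = p₁ + p₁₁`,
`Q = p₇ - p₁₃`; `S > 0`, `P > Q > 0` (`cot (π/15) > cot (7π/15) + cot (4π/15) + cot (2π/15)`: `4.70 > 0.11 + 0.91 + 2.25`; S_COT
helps for `π/15`, `2π/15`), `a, b > 0`. (1) `ct 15 (2u)` for `u = 1, 7, 11, 13` is `-p₁₃, -p₁, p₇, p₁₁`. The relation at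
`1` minus those at `7, 11, 13`: `X S = t S`; `(1) + (11)`: `X P + 2 a Y = t Q`; `(7) - (13)`: `X Q - 2 b Y = - t P`. So
`X = t`, `2 a Y = t (Q - P) < 0`, `2 b Y = t (P + Q) > 0`. (2) `ct 10 (3u)` is `b, a, b, -a`: `X S = 0`, `2 a Y = 2 t b > 0`,
`- 2 b Y = 2 t a > 0`. -/
def S_LIN : Prop := (¬ ∃ X Y Z t : ℝ, 0 < t ∧ ∀ u ∈ ({1, 7, 11, 13} : Finset ℕ),
    X * ct 15 u + Y * ct 10 u + Z * ct 6 u = t * ct 15 (2 * u)) ∧
  ¬ ∃ X Y Z t : ℝ, 0 < t ∧ ∀ u ∈ ({1, 7, 11, 13} : Finset ℕ),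
    X * ct 15 u + Y * ct 10 u + Z * ct 6 u = t * ct 10 (3 * u)

/-- QR15 (120 lines), from S_STEP2, S_TOPC, S_LIN. `15 ∣ M₀`: otherwise there is a unit `w ≡ 1 mod M₀` with
`2 w ≡ x mod 15`, `2 < x < 15` (step (1) of RR, `hS2` in `two_terms`, `4 d < f`), a contradiction as `ct 15 x < ct 15 2` and
`ct_le_one`. So `u ≡ 1 mod M₀` gives `u ≡ 1 mod 15` and STEP2 applies. If `cond M₀ ≠ 15`, it is a proper multiple of `15`
(`15 ∣ M₀`, `15` is odd), so TOPC gives `∑_{M i = M₀} c i = 1`, and `u = 1` gives `0 = A ct 15 2 + ...  > 0`. Otherwise `M₀ ∈ {15, 30}`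
and all `M i ∈ {6, 10, 15, 30}` (divisors of `30`, NPP). With `ct 30 u = ct 15 u + ct 10 u + ct 6 u` (`K_thirty`, `K_eq_ct`; `30 ∣ L`)
the relation for units `w ≡ 1, 7, 11, 13 mod 30` (`lift_unit`) has the form of LIN (1). -/
def S_QR15 : Prop := ∀ (ι : Type) (T : Finset ι) (M : ι → ℕ) (c : ι → ℝ) (M₀ L : ℕ) (A : ℝ),
  30 ∣ L → ¬ Tw T M c M₀ 2 15 L A

/-- QR10 (120 lines), from S_STEP2, S_TOPC, S_LIN. `5 ∣ M₀`: otherwise there is a unit `w ≡ 1 mod M₀`, `w ≡ 9 mod 10`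
(`w` is odd as `10 ∣ L`; `lift_two` with `2 ∣ M₀` or not), `3 w ≡ 7 mod 10`, `ct 10 7 < ct 10 3`: a contradiction. So `u ≡ 1 mod M₀`
gives `u ≡ 1 mod 10` (`u` is odd) and STEP2 applies. If `cond M₀ ∉ {5, 15}`: `¬ cond M₀ ∣ 10` (`5 ∣ cond M₀`), TOPC and `u = 1`
(`ct 10 3 > 0`). Otherwise `M₀ ∣ 30`, all `M i ∣ 30`, and LIN (2). -/
def S_QR10 : Prop := ∀ (ι : Type) (T : Finset ι) (M : ι → ℕ) (c : ι → ℝ) (M₀ L : ℕ) (A : ℝ),
  30 ∣ L → ¬ Tw T M c M₀ 3 10 L A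

/-- PAIR (150 lines), from S_E2R, S_E3R, S_E5R, S_QR15, S_QR10. `lastProd K = 30` leaves `{5,6}`, `{2,15}`, `{3,10}`
(`prod_thirty` in `Pool/Agent/H80/IR/Fin.lean`). Case `{2, 15}`. E3R: the left hand side is `0`, so
`A₃ ct 10 (3u) = ∑_{hd1 = 3} c i kap tail u` with `A₃ = ∑_{lastProd = 30, 3 ∈ pair} c i`; `A₃ > 0` contradicts `ss_pos`
(`d = 3`, `f = 10`), so no `K' i` with last product `30` has `3` in its pair. E5R at `u = 1`: `0` is a sum of nonnegative terms, so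
none of them has `5` in its pair. So they all have `2` in the pair and E2R says
`[hd1 K = 2] kap K.tail u = t ct 15 (2u) + ∑_{hd1 = 2} c i kap tail u` (`1 - ∑_{lastProd = 30} c i = t`). At `u = 1` the right
hand side is positive, so `hd1 K = 2`, `K.tail ≠ []`: contradiction to QR15 (`T` = those `i` with `hd1 = 2` and nonempty tail,
`M i` = last product of the tail). Case `{3, 10}`: the same with E2R (`ss_pos` with `d = 2`, `f = 15`), E5R, then E3R and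
QR10. -/
def S_PAIR : Prop := ∀ (ι : Type) (S : Finset ι) (K : List (ℕ × ℕ)) (K' : ι → List (ℕ × ℕ))
  (c : ι → ℝ) (t : ℝ), PosRel S K K' c → Wt S K K' c t →
  (hd1 K = 5 ∧ hd2 K = 6) ∨ (hd1 K = 6 ∧ hd2 K = 5)

end Pool.Agent.H80.IR
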