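import Pool.Agent.H80.IR.T.SEV
set_option autoImplicit false

/-! # The exceptional sums of three knots, converse -/

namespace Pool.Agent.H80.IR

open Pool.Agent.H80.Sig Finset

lemma sigK_add_nat (L : List (ℕ × ℕ)) : ∀ (x : ℝ) (n : ℕ), sigK L (x + n) = sigK L x := by
  induction L with
  | nil => intro x n; rfl
  | cons d L ih =>
    obtain ⟨p, q⟩ := d
    intro x n
    have h1 : sig p q (x + n) = sig p q x := by
      unfold sig
      rw [Int.fract_add_natCast]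
    have h2 : (p : ℝ) * (x + n) = p * x + ((p * n : ℕ) : ℝ) := by push_cast; ring
    simp only [sigK]
    rw [h1, h2, ih]

theorem exceptional_conv (L A B : List (ℕ × ℕ))
    (h : {x : ℝ | x ∈ Set.Ioo (0 : ℝ) 1 ∧ sigK [(2, 3)] x + sigK L x ≠ sigK A x + sigK B x}.Finite) :
    {x : ℝ | x ∈ Set.Ioo (0 : ℝ) 1 ∧ sigK ((5, 6) :: L) x ≠
      sigK [(2, 3)] x + sigK ((5, 2) :: A) x + sigK ((5, 3) :: B) x}.Finite := by
  have hU : (⋃ m ∈ ((Finset.range 5 : Finset ℕ) : Set ℕ), ((fun y : ℝ => (y + (m : ℝ)) / 5) ''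
      {x : ℝ | x ∈ Set.Ioo (0 : ℝ) 1 ∧ sigK [(2, 3)] x + sigK L x ≠ sigK A x + sigK B x} ∪
      {(m : ℝ) / 5})).Finite :=
    Set.Finite.biUnion (Finset.range 5).finite_toSet fun m _ =>
      (h.image _).union (Set.finite_singleton _)
  refine (exceptional.union hU).subset ?_
  rintro x ⟨hx, hne⟩
  by_contra hcon
  have c2 : sigK [(5, 6)] x = sigK [(2, 3)] x + sigK [(2, 5)] x + sigK [(5, 3), (2, 3)] x := by
    by_contra h'
    exact hcon (Or.inl ⟨hx, h'⟩)
  have h0 : 0 ≤ 5 * x := by linarith [hx.1]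
  obtain ⟨m, hm⟩ : ∃ m, m = ⌊5 * x⌋₊ := ⟨_, rfl⟩
  have hm1 : (m : ℝ) ≤ 5 * x := by rw [hm]; exact Nat.floor_le h0
  have hm2 : 5 * x < m + 1 := by rw [hm]; exact Nat.lt_floor_add_one _
  have hm5 : m < 5 := by
    have h3 : (m : ℝ) < 5 := by linarith [hx.2]
    exact_mod_cast h3
  have hmem : m ∈ ((Finset.range 5 : Finset ℕ) : Set ℕ) := by simpa using hm5
  have hy0 : 5 * x - m ≠ 0 := by
    intro h3
    apply hcon
    refine Or.inr (Set.mem_biUnion hmem (Or.inr ?_))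
    rw [Set.mem_singleton_iff]
    linarith
  have hy : 5 * x - m ∈ Set.Ioo (0 : ℝ) 1 :=
    ⟨lt_of_le_of_ne (by linarith) (Ne.symm hy0), by linarith⟩
  have c3 : sigK [(2, 3)] (5 * x - m) + sigK L (5 * x - m) =
      sigK A (5 * x - m) + sigK B (5 * x - m) := by
    by_contra h'
    apply hcon
    refine Or.inr (Set.mem_biUnion hmem (Or.inl ⟨5 * x - m, ⟨hy, h'⟩, ?_⟩))
    ring
  have per : ∀ X : List (ℕ × ℕ), sigK X (5 * x - m) = sigK X (((5 : ℕ) : ℝ) * x) := by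
    intro X
    rw [← sigK_add_nat X (5 * x - m) m]
    congr 1
    push_cast; ring
  rw [per, per, per, per] at c3
  apply hne
  simp only [sigK] at c2 c3 ⊢
  rw [sig_swap 5 2]
  linarith

end Pool.Agent.H80.IR
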